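import Mathlib

/-!
Lorentz space of signature (3,1): unit spacelike vectors model discs, future causal vectors
model points of the closed ball.
-/

namespace Pool.Agent.P.MP_7578b2_co

/-- A vector of Lorentz 4-space; `t` is the time coordinate. -/
structure V where
  t : ℝ
  z : ℝ
  x : ℝ
  y : ℝ

theorem V.ext' {a b : V} (h1 : a.t = b.t) (h2 : a.z = b.z) (h3 : a.x = b.x) (h4 : a.y = b.y) :
    a = b := by
  cases a; cases b; simp_all

/-- The Lorentz form. -/
def B (v w : V) : ℝ := v.z * w.z + v.x * w.x + v.y * w.y - v.t * w.t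

/-- The opposite vector. -/
def ng (v : V) : V := ⟨-v.t, -v.z, -v.x, -v.y⟩

/-- Linear combination. -/
def lc (a : ℝ) (v : V) (b : ℝ) (w : V) : V :=
  ⟨a * v.t + b * w.t, a * v.z + b * w.z, a * v.x + b * w.x, a * v.y + b * w.y⟩

/-- The two discs meet. -/
def M (v w : V) : Prop := |B v w| ≤ 1

/-- Future causal nonzero vector. -/
def Pt (p : V) : Prop := 0 < p.t ∧ B p p ≤ 0

/-- Chronological order on unit vectors. -/
def Lt (v w : V) : Prop := 1 < B v w ∧ v.t < w.t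

/-- Externally disjoint half balls. -/
def Ext (v w : V) : Prop := B v w < -1 ∧ 0 < v.t + w.t

theorem B_comm (v w : V) : B v w = B w v := by unfold B; ring

@[simp] theorem B_ng_left (v w : V) : B (ng v) w = - B v w := by unfold B ng; ring
@[simp] theorem B_ng_right (v w : V) : B v (ng w) = - B v w := by unfold B ng; ring
@[simp] theorem ng_t (v : V) : (ng v).t = - v.t := rfl
@[simp] theorem ng_ng (v : V) : ng (ng v) = v := by
  apply V.ext' <;> simp [ng]

theorem B_lc_left (a : ℝ) (v : V) (b : ℝ) (w u : V) :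
    B (lc a v b w) u = a * B v u + b * B w u := by unfold B lc; ring
theorem B_lc_right (a : ℝ) (v : V) (b : ℝ) (w u : V) :
    B u (lc a v b w) = a * B u v + b * B u w := by unfold B lc; ring
@[simp] theorem lc_t (a : ℝ) (v : V) (b : ℝ) (w : V) : (lc a v b w).t = a * v.t + b * w.t := rfl

theorem M.symm {v w : V} (h : M v w) : M w v := by unfold M at *; rwa [B_comm]
theorem M_comm {v w : V} : M v w ↔ M w v := ⟨M.symm, M.symm⟩
@[simp] theorem M_ng_left {v w : V} : M (ng v) w ↔ M v w := by unfold M; simp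
@[simp] theorem M_ng_right {v w : V} : M v (ng w) ↔ M v w := by unfold M; simp

theorem not_M {v w : V} (h : ¬ M v w) : 1 < B v w ∨ B v w < -1 := by
  unfold M at h
  rcases le_or_gt 0 (B v w) with h0 | h0
  · left; rw [abs_of_nonneg h0] at h; linarith [not_le.mp h]
  · right; rw [abs_of_neg h0] at h; linarith [not_le.mp h]

theorem M.le {v w : V} (h : M v w) : B v w ≤ 1 := (abs_le.mp h).2
theorem M.ge {v w : V} (h : M v w) : -1 ≤ B v w := (abs_le.mp h).1

theorem Ext.symm {v w : V} (h : Ext v w) : Ext w v := by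
  unfold Ext at *; rw [B_comm]; exact ⟨h.1, by linarith [h.2]⟩

theorem ext_iff {v w : V} : Ext v w ↔ Lt (ng v) w := by
  unfold Ext Lt; simp only [B_ng_left, ng_t]
  constructor <;> rintro ⟨h1, h2⟩ <;> constructor <;> linarith

/-- Reverse Cauchy-Schwarz, strict form. -/
theorem fut_inner {u p : V} (hu : 0 < u.t) (huu : B u u < 0) (hp : Pt p) : B u p < 0 := by
  obtain ⟨hp1, hp2⟩ := hp
  unfold B at *
  by_contra hcon
  push Not at hcon
  have h1 : u.t * p.t ≤ u.z * p.z + u.x * p.x + u.y * p.y := by linarith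
  have h0 : 0 < u.t * p.t := mul_pos hu hp1
  have h2 : (u.t * p.t) ^ 2 ≤ (u.z * p.z + u.x * p.x + u.y * p.y) ^ 2 :=
    pow_le_pow_left₀ h0.le h1 2
  have h3 : (u.z * p.z + u.x * p.x + u.y * p.y) ^ 2 ≤
      (u.z ^ 2 + u.x ^ 2 + u.y ^ 2) * (p.z ^ 2 + p.x ^ 2 + p.y ^ 2) := by
    nlinarith [sq_nonneg (u.z * p.x - u.x * p.z), sq_nonneg (u.z * p.y - u.y * p.z),
      sq_nonneg (u.x * p.y - u.y * p.x)]
  have h4 : (u.z ^ 2 + u.x ^ 2 + u.y ^ 2) * (p.z ^ 2 + p.x ^ 2 + p.y ^ 2) ≤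
      (u.z ^ 2 + u.x ^ 2 + u.y ^ 2) * p.t ^ 2 :=
    mul_le_mul_of_nonneg_left (by nlinarith) (by positivity)
  have h5 : (u.z ^ 2 + u.x ^ 2 + u.y ^ 2) * p.t ^ 2 < u.t ^ 2 * p.t ^ 2 :=
    mul_lt_mul_of_pos_right (by nlinarith) (by positivity)
  nlinarith

/-- Reverse Cauchy-Schwarz, weak form. -/
theorem fut_inner_le {u p : V} (hu : 0 ≤ u.t) (huu : B u u ≤ 0) (hp : Pt p) : B u p ≤ 0 := by
  obtain ⟨hp1, hp2⟩ := hp
  unfold B at *
  by_contra hcon
  push Not at hcon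
  have h1 : u.t * p.t < u.z * p.z + u.x * p.x + u.y * p.y := by linarith
  have h0 : 0 ≤ u.t * p.t := mul_nonneg hu hp1.le
  have h2 : (u.t * p.t) ^ 2 < (u.z * p.z + u.x * p.x + u.y * p.y) ^ 2 :=
    pow_lt_pow_left₀ h1 h0 (by norm_num)
  have h3 : (u.z * p.z + u.x * p.x + u.y * p.y) ^ 2 ≤
      (u.z ^ 2 + u.x ^ 2 + u.y ^ 2) * (p.z ^ 2 + p.x ^ 2 + p.y ^ 2) := by
    nlinarith [sq_nonneg (u.z * p.x - u.x * p.z), sq_nonneg (u.z * p.y - u.y * p.z),
      sq_nonneg (u.x * p.y - u.y * p.x)]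
  have h4 : (u.z ^ 2 + u.x ^ 2 + u.y ^ 2) * (p.z ^ 2 + p.x ^ 2 + p.y ^ 2) ≤
      u.t ^ 2 * p.t ^ 2 :=
    mul_le_mul (by nlinarith) (by nlinarith) (by positivity) (by positivity)
  nlinarith

theorem time_ne {v w : V} (hv : B v v = 1) (hw : B w w = 1) (h : 1 < B v w) : v.t ≠ w.t := by
  intro e
  unfold B at *
  rw [e] at hv h
  nlinarith [sq_nonneg (v.z - w.z), sq_nonneg (v.x - w.x), sq_nonneg (v.y - w.y)]

theorem lt_or_lt {v w : V} (hv : B v v = 1) (hw : B w w = 1) (h : 1 < B v w) :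
    Lt v w ∨ Lt w v := by
  rcases lt_or_gt_of_ne (time_ne hv hw h) with h1 | h1
  · exact Or.inl ⟨h, h1⟩
  · exact Or.inr ⟨by rwa [B_comm], h1⟩

theorem Lt.trans {u v w : V} (hu : B u u = 1) (hv : B v v = 1) (hw : B w w = 1)
    (h1 : Lt u v) (h2 : Lt v w) : Lt u w := by
  refine ⟨?_, h1.2.trans h2.2⟩
  have a1 : B (lc 1 v (-1) u) (lc 1 v (-1) u) < 0 := by
    rw [B_lc_left, B_lc_right, B_lc_right, B_comm v u]; linarith [h1.1]
  have a2 : B (lc 1 w (-1) v) (lc 1 w (-1) v) < 0 := by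
    rw [B_lc_left, B_lc_right, B_lc_right, B_comm w v]; linarith [h2.1]
  have a3 := fut_inner (u := lc 1 v (-1) u) (p := lc 1 w (-1) v)
    (by simp; linarith [h1.2]) a1 ⟨by simp; linarith [h2.2], a2.le⟩
  rw [B_lc_left, B_lc_right, B_lc_right] at a3
  linarith [h1.1, h2.1]

/-- Externally disjoint half balls have no common point. -/
theorem Ext.no_pt {v w p : V} (hv : B v v = 1) (hw : B w w = 1) (h : Ext v w) (hp : Pt p)
    (h1 : 0 ≤ B v p) (h2 : 0 ≤ B w p) : False := by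
  have a1 : B (lc 1 v 1 w) (lc 1 v 1 w) < 0 := by
    rw [B_lc_left, B_lc_right, B_lc_right, B_comm w v]; linarith [h.1]
  have a3 := fut_inner (u := lc 1 v 1 w) (by simp; linarith [h.2]) a1 hp
  rw [B_lc_left] at a3
  linarith

/-- A disc meeting the two outer discs of a chain meets the middle one. -/
theorem witness {X Y Z W : V} (hX : B X X = 1) (hY : B Y Y = 1) (hZ : B Z Z = 1)
    (hW : B W W = 1) (h1 : Lt X Y) (h2 : Lt Y Z) (m1 : M W X) (m2 : M W Z) : M W Y := by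
  have key : ∀ W : V, B W W = 1 → M W X → M W Z → ¬ 1 < B W Y := by
    intro W hW m1 m2 h
    rcases lt_or_lt hW hY h with h3 | h3
    · have := (Lt.trans hW hY hZ h3 h2).1
      linarith [m2.le]
    · have := (Lt.trans hX hY hW h1 h3).1
      rw [B_comm] at this
      linarith [m1.le]
  by_contra hc
  rcases not_M hc with h | h
  · exact key W hW m1 m2 h
  · exact key (ng W) (by simp [hW]) (by simpa) (by simpa) (by simp; linarith)

theorem no_chain {X Y Z WX WY WZ : V} (hX : B X X = 1) (hY : B Y Y = 1) (hZ : B Z Z = 1)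
    (hWX : B WX WX = 1) (hWY : B WY WY = 1) (hWZ : B WZ WZ = 1)
    (h1 : 1 < B X Y) (h2 : 1 < B Y Z) (h3 : 1 < B X Z)
    (x1 : ¬ M WX X) (x2 : M WX Y) (x3 : M WX Z)
    (y1 : M WY X) (y2 : ¬ M WY Y) (y3 : M WY Z)
    (z1 : M WZ X) (z2 : M WZ Y) (z3 : ¬ M WZ Z) : False := by
  rcases lt_or_lt hX hY h1 with a | a <;> rcases lt_or_lt hY hZ h2 with b | b <;>
    rcases lt_or_lt hX hZ h3 with c | c
  · exact y2 (witness hX hY hZ hWY a b y1 y3)
  · exact y2 (witness hX hY hZ hWY a b y1 y3)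
  · exact z3 (witness hX hZ hY hWZ c b z1 z2)
  · exact x1 (witness hZ hX hY hWX c a x3 x2)
  · exact x1 (witness hY hX hZ hWX a c x2 x3)
  · exact z3 (witness hY hZ hX hWZ b c z2 z1)
  · exact y2 (witness hZ hY hX hWY b a y3 y1)
  · exact y2 (witness hZ hY hX hWY b a y3 y1)

/-- Equal up to sign. -/
def Sg (v w : V) : Prop := w = v ∨ w = ng v

theorem Sg.unit {v w : V} (h : Sg v w) (hv : B v v = 1) : B w w = 1 := by
  rcases h with rfl | rfl <;> simp [hv]
theorem Sg.M_left {v w u : V} (h : Sg v w) : M w u ↔ M v u := by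
  rcases h with rfl | rfl <;> simp
theorem Sg.M_right {v w u : V} (h : Sg v w) : M u w ↔ M u v := by
  rcases h with rfl | rfl <;> simp
theorem Sg.abs_left {v w u : V} (h : Sg v w) : |B w u| = |B v u| := by
  rcases h with rfl | rfl <;> simp
theorem Sg.abs_right {v w u : V} (h : Sg v w) : |B u w| = |B u v| := by
  rcases h with rfl | rfl <;> simp
theorem Sg.ng' {v w : V} (h : Sg v w) : Sg v (ng w) := by
  rcases h with rfl | rfl
  · exact Or.inr rfl
  · exact Or.inl (by simp)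

theorem exists_sg_neg {u v : V} (h : ¬ M u v) : ∃ w, Sg v w ∧ B u w < -1 := by
  rcases not_M h with h | h
  · exact ⟨ng v, Or.inr rfl, by simp; linarith⟩
  · exact ⟨v, Or.inl rfl, h⟩

theorem exists_sg_pos {u v : V} (h : ¬ M u v) : ∃ w, Sg v w ∧ 1 < B u w := by
  rcases not_M h with h | h
  · exact ⟨v, Or.inl rfl, h⟩
  · exact ⟨ng v, Or.inr rfl, by simp; linarith⟩

theorem ext3_aux {X Y Z : V} (hX : B X X = 1) (hY : B Y Y = 1) (hZ : B Z Z = 1)
    (h1 : Ext X Y) (h2 : B X Z < -1) (h3 : B Y Z < -1) : Ext X Z ∧ Ext Y Z := by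
  have hnX : B (ng X) (ng X) = 1 := by simp [hX]
  have hnZ : B (ng Z) (ng Z) = 1 := by simp [hZ]
  have e1 : Ext X Z := by
    rcases lt_or_lt hnX hZ (by simp; linarith) with a | a
    · exact ext_iff.mpr a
    · have := (Lt.trans hZ hnX hY a (ext_iff.mp h1)).1
      rw [B_comm] at this; linarith
  refine ⟨e1, ?_⟩
  rcases lt_or_lt hnZ hY (by simp; rw [B_comm]; linarith) with a | a
  · exact (ext_iff.mpr a).symm
  · have := (Lt.trans hnX hY hnZ (ext_iff.mp h1) a).1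
    simp at this; linarith

/-- Three pairwise disjoint discs with witnesses can be oriented to be mutually external. -/
theorem ext3 {X Y Z WX WY WZ : V} (hX : B X X = 1) (hY : B Y Y = 1) (hZ : B Z Z = 1)
    (hWX : B WX WX = 1) (hWY : B WY WY = 1) (hWZ : B WZ WZ = 1)
    (h1 : ¬ M X Y) (h2 : ¬ M Y Z) (h3 : ¬ M X Z)
    (x1 : ¬ M WX X) (x2 : M WX Y) (x3 : M WX Z)
    (y1 : M WY X) (y2 : ¬ M WY Y) (y3 : M WY Z)
    (z1 : M WZ X) (z2 : M WZ Y) (z3 : ¬ M WZ Z) :
    ∃ X' Y' Z', Sg X X' ∧ Sg Y Y' ∧ Sg Z Z' ∧ Ext X' Y' ∧ Ext X' Z' ∧ Ext Y' Z' := by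
  obtain ⟨Y1, sY, hY1⟩ := exists_sg_neg h1
  obtain ⟨Z1, sZ, hZ1⟩ := exists_sg_neg h3
  have uY := sY.unit hY
  have uZ := sZ.unit hZ
  have hnX : B (ng X) (ng X) = 1 := by simp [hX]
  have h23 : B Y1 Z1 < -1 := by
    have : ¬ M Y1 Z1 := by rw [sY.M_left, sZ.M_right]; exact h2
    rcases not_M this with h | h
    · exfalso
      exact no_chain hnX uY uZ hWX hWY hWZ (by simp; linarith) h (by simp; linarith)
        (by simpa) (sY.M_right.mpr x2) (sZ.M_right.mpr x3) (by simpa)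
        (by rwa [sY.M_right]) (sZ.M_right.mpr y3) (by simpa) (sY.M_right.mpr z2)
        (by rwa [sZ.M_right])
    · exact h
  rcases lt_or_lt hnX uY (by simp; linarith) with a | a
  · have e := ext_iff.mpr a
    obtain ⟨e1, e2⟩ := ext3_aux hX uY uZ e hZ1 h23
    exact ⟨X, Y1, Z1, Or.inl rfl, sY, sZ, e, e1, e2⟩
  · have e : Ext (ng X) (ng Y1) := ⟨by simpa using hY1, by have := a.2; simp at this ⊢; linarith⟩
    obtain ⟨e1, e2⟩ := ext3_aux (Z := ng Z1) hnX (by simp [uY]) (by simp [uZ]) e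
      (by simpa using hZ1) (by simpa using h23)
    exact ⟨ng X, ng Y1, ng Z1, Or.inr rfl, sY.ng', sZ.ng', e, e1, e2⟩

/-- Meeting discs have a common point. -/
theorem meet_pt {v w : V} (hv : B v v = 1) (hw : B w w = 1) (h : M v w) :
    ∃ p, Pt p ∧ B v p = 0 ∧ B w p = 0 := by
  have h1 := h.le
  have h2 := h.ge
  set β := B v w with hβ
  have hβ2 : 0 ≤ 1 - β ^ 2 := by nlinarith
  let eT : V := ⟨1, 0, 0, 0⟩
  have eTv : ∀ u : V, B u eT = - u.t := fun u => by simp [B, eT]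
  by_cases hc : 0 < (1 - β ^ 2) + v.t ^ 2 - 2 * β * v.t * w.t + w.t ^ 2
  · let q := lc (v.t - β * w.t) v (w.t - β * v.t) w
    let p := lc (1 - β ^ 2) eT 1 q
    have pt : p.t = (1 - β ^ 2) + v.t ^ 2 - 2 * β * v.t * w.t + w.t ^ 2 := by
      simp [p, q, eT]; ring
    have pv : B v p = 0 := by
      simp only [p, q, B_lc_right, eTv, hv, ← hβ]; ring
    have pw : B w p = 0 := by
      simp only [p, q, B_lc_right, eTv, hw, B_comm w v, ← hβ]; ring
    refine ⟨p, ⟨by rw [pt]; exact hc, ?_⟩, pv, pw⟩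
    have : B p p = (1 - β ^ 2) * (- p.t) := by
      conv_lhs => rw [show B p p = B p (lc (1 - β ^ 2) eT 1 q) from rfl]
      rw [B_lc_right, eTv]
      simp only [q, B_lc_right, B_comm p v, B_comm p w, pv, pw]; ring
    rw [this, pt]
    nlinarith
  · push Not at hc
    have e1 : (1 - β ^ 2) * (1 + w.t ^ 2) + (v.t - β * w.t) ^ 2 ≤ 0 := by nlinarith
    have e2 : 0 ≤ (1 - β ^ 2) * (1 + w.t ^ 2) := by positivity
    have e3 : (1 - β ^ 2) * (1 + w.t ^ 2) = 0 := by nlinarith [sq_nonneg (v.t - β * w.t)]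
    have e4 : 1 - β ^ 2 = 0 := by
      rcases mul_eq_zero.mp e3 with h | h
      · exact h
      · nlinarith [sq_nonneg w.t]
    have e5 : v.t = β * w.t := by nlinarith [sq_nonneg (v.t - β * w.t)]
    have e6 : (v.z - β * w.z) ^ 2 + (v.x - β * w.x) ^ 2 + (v.y - β * w.y) ^ 2 = 0 := by
      have hβ' : β = v.z * w.z + v.x * w.x + v.y * w.y - v.t * w.t := hβ
      unfold B at hv hw
      have : (v.z - β * w.z) ^ 2 + (v.x - β * w.x) ^ 2 + (v.y - β * w.y) ^ 2
          - (v.t - β * w.t) ^ 2 = 1 - β ^ 2 := by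
        linear_combination hv + β ^ 2 * hw + 2 * β * hβ'
      rw [e5] at this
      linarith [this, e4, show (β * w.t - β * w.t) ^ 2 = 0 by ring]
    have f1 : v.z = β * w.z := by
      nlinarith [sq_nonneg (v.z - β * w.z), sq_nonneg (v.x - β * w.x), sq_nonneg (v.y - β * w.y)]
    have f2 : v.x = β * w.x := by
      nlinarith [sq_nonneg (v.z - β * w.z), sq_nonneg (v.x - β * w.x), sq_nonneg (v.y - β * w.y)]
    have f3 : v.y = β * w.y := by
      nlinarith [sq_nonneg (v.z - β * w.z), sq_nonneg (v.x - β * w.x), sq_nonneg (v.y - β * w.y)]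
    let p := lc 1 eT w.t w
    have pw : B w p = 0 := by simp only [p, B_lc_right, eTv, hw]; ring
    have pv : B v p = β * B w p := by
      unfold B; rw [e5, f1, f2, f3]; ring
    refine ⟨p, ⟨by simp [p, eT]; nlinarith [sq_nonneg w.t], ?_⟩, by rw [pv, pw]; simp, pw⟩
    have : B p p = - p.t := by
      conv_lhs => rw [show B p p = B p (lc 1 eT w.t w) from rfl]
      rw [B_lc_right, eTv, B_comm p w, pw]; ring
    rw [this]; simp [p, eT]; nlinarith [sq_nonneg w.t]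

theorem M_of_pt {v w p : V} (hv : B v v = 1) (hw : B w w = 1) (hp : Pt p)
    (h1 : B v p = 0) (h2 : B w p = 0) : M v w := by
  have key : ∀ v w : V, B v v = 1 → B w w = 1 → B v p = 0 → B w p = 0 → ¬ Lt v w := by
    intro v w hv hw h1 h2 h
    have e : Ext (ng v) w := ext_iff.mpr (by simpa using h)
    exact e.no_pt (by simp [hv]) hw hp (by simp [h1]) h2.ge
  by_contra hc
  obtain ⟨w', s, h⟩ := exists_sg_pos hc
  have h2' : B w' p = 0 := by rcases s with rfl | rfl <;> simp [h2]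
  rcases lt_or_lt hv (s.unit hw) h with a | a
  · exact key _ _ hv (s.unit hw) h1 h2' a
  · exact key _ _ (s.unit hw) hv h2' h1 a

/-- Maps preserving the Lorentz form. -/
def Iso (f : V → V) : Prop := ∀ v w, B (f v) (f w) = B v w

theorem Iso.M {f : V → V} (h : Iso f) {v w : V} : M (f v) (f w) ↔ M v w := by
  unfold Pool.Agent.P.MP_7578b2_co.M; rw [h]

theorem Iso.comp {f g : V → V} (hf : Iso f) (hg : Iso g) : Iso (f ∘ g) := fun v w => by
  simp only [Function.comp]; rw [hf, hg]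

/-- Reflection in the vector `n`. -/
noncomputable def rf (n v : V) : V := lc 1 v (-(2 * B v n / B n n)) n

theorem rf_iso {n : V} (hn : B n n ≠ 0) : Iso (rf n) := fun v w => by
  unfold rf
  rw [B_lc_left, B_lc_right, B_lc_right, B_comm n w]
  field_simp
  ring

theorem rf_swap {a b : V} (h : B a a = B b b) (hn : B (lc 1 a (-1) b) (lc 1 a (-1) b) ≠ 0) :
    rf (lc 1 a (-1) b) a = b := by
  have e : 2 * B a (lc 1 a (-1) b) / B (lc 1 a (-1) b) (lc 1 a (-1) b) = 1 := by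
    rw [div_eq_one_iff_eq hn, B_lc_left, B_lc_right, B_lc_right, B_comm b a, h]; ring
  unfold rf
  rw [e]
  apply V.ext' <;> simp [lc]

theorem ng_iso : Iso ng := fun v w => by simp

theorem exists_iso_time {u : V} (hu : B u u = -1) : ∃ f, Iso f ∧ f u = ⟨1, 0, 0, 0⟩ := by
  have key : ∀ u : V, B u u = -1 → u.t ≤ 0 → ∃ f, Iso f ∧ f u = ⟨1, 0, 0, 0⟩ := by
    intro u hu ht
    have hn : B (lc 1 u (-1) ⟨1, 0, 0, 0⟩) (lc 1 u (-1) ⟨1, 0, 0, 0⟩) ≠ 0 := by
      rw [B_lc_left, B_lc_right, B_lc_right, hu]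
      simp [B]; linarith
    exact ⟨_, rf_iso hn, rf_swap (by rw [hu]; simp [B]) hn⟩
  rcases le_total u.t 0 with h | h
  · exact key u hu h
  · obtain ⟨f, hf, e⟩ := key (ng u) (by simp [hu]) (by simpa)
    exact ⟨f ∘ ng, hf.comp ng_iso, e⟩

theorem exists_iso_space {u : V} (hu : B u u = 1) (ht : u.t = 0) :
    ∃ f, Iso f ∧ f ⟨1, 0, 0, 0⟩ = ⟨1, 0, 0, 0⟩ ∧ f u = ⟨0, 1, 0, 0⟩ := by
  by_cases hn : B (lc 1 u (-1) ⟨0, 1, 0, 0⟩) (lc 1 u (-1) ⟨0, 1, 0, 0⟩) = 0
  · refine ⟨id, fun _ _ => rfl, rfl, ?_⟩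
    simp [B, lc, ht] at hn
    have f1 : u.z + -1 = 0 := by
      nlinarith [mul_self_nonneg (u.z + -1), mul_self_nonneg u.x, mul_self_nonneg u.y]
    have f2 : u.x = 0 := by
      nlinarith [mul_self_nonneg (u.z + -1), mul_self_nonneg u.x, mul_self_nonneg u.y]
    have f3 : u.y = 0 := by
      nlinarith [mul_self_nonneg (u.z + -1), mul_self_nonneg u.x, mul_self_nonneg u.y]
    apply V.ext' <;> simp [ht, f2, f3]; linarith
  · refine ⟨_, rf_iso hn, ?_, rf_swap (by rw [hu]; simp [B]) hn⟩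
    unfold rf
    have : B ⟨1, 0, 0, 0⟩ (lc 1 u (-1) ⟨0, 1, 0, 0⟩) = 0 := by simp [B, lc, ht]
    rw [this]
    apply V.ext' <;> simp [lc]

/-- Normal form of a pair of disjoint discs. -/
theorem normal_form {A C : V} (hA : B A A = 1) (hC : B C C = 1) (h : 1 < B A C) :
    ∃ (f : V → V) (σ κ : ℝ), Iso f ∧ 0 < σ ∧ 0 < κ ∧ κ ^ 2 = σ ^ 2 + 1 ∧
      f A = ⟨σ, κ, 0, 0⟩ ∧ f C = ⟨-σ, κ, 0, 0⟩ := by
  set β := B A C with hβ
  have hσ : 0 < √((β - 1) / 2) := Real.sqrt_pos.mpr (by linarith)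
  have hκ : 0 < √((β + 1) / 2) := Real.sqrt_pos.mpr (by linarith)
  have hσ2 : √((β - 1) / 2) ^ 2 = (β - 1) / 2 := Real.sq_sqrt (by linarith)
  have hκ2 : √((β + 1) / 2) ^ 2 = (β + 1) / 2 := Real.sq_sqrt (by linarith)
  set σ := √((β - 1) / 2)
  set κ := √((β + 1) / 2)
  have b1 : β = 2 * σ ^ 2 + 1 := by linarith
  have b2 : β = 2 * κ ^ 2 - 1 := by linarith
  let tt := lc (1 / (2 * σ)) A (-(1 / (2 * σ))) C
  let zz := lc (1 / (2 * κ)) A (1 / (2 * κ)) C
  have At : B A tt = -σ := by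
    simp only [tt, B_lc_right, hA, ← hβ]; rw [b1]; field_simp; ring
  have Ct : B C tt = σ := by
    simp only [tt, B_lc_right, hC, B_comm C A, ← hβ]; rw [b1]; field_simp; ring
  have Az : B A zz = κ := by
    simp only [zz, B_lc_right, hA, ← hβ]; rw [b2]; field_simp; ring
  have Cz : B C zz = κ := by
    simp only [zz, B_lc_right, hC, B_comm C A, ← hβ]; rw [b2]; field_simp; ring
  have htt : B tt tt = -1 := by
    conv_lhs => rw [show B tt tt = B (lc (1 / (2 * σ)) A (-(1 / (2 * σ))) C) tt from rfl]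
    rw [B_lc_left, At, Ct]; field_simp; ring
  have hzz : B zz zz = 1 := by
    conv_lhs => rw [show B zz zz = B (lc (1 / (2 * κ)) A (1 / (2 * κ)) C) zz from rfl]
    rw [B_lc_left, Az, Cz]; field_simp; ring
  have hzt : B zz tt = 0 := by
    conv_lhs => rw [show B zz tt = B (lc (1 / (2 * κ)) A (1 / (2 * κ)) C) tt from rfl]
    rw [B_lc_left, At, Ct]; ring
  obtain ⟨f, hf, ef⟩ := exists_iso_time htt
  have hz0 : (f zz).t = 0 := by
    have := hf zz tt
    rw [ef, hzt] at this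
    simpa [B] using this
  obtain ⟨g, hg, eg1, eg2⟩ := exists_iso_space (u := f zz) (by rw [hf, hzz]) hz0
  have hF := hg.comp hf
  have Ft : (g ∘ f) tt = ⟨1, 0, 0, 0⟩ := by simp [ef, eg1]
  have Fz : (g ∘ f) zz = ⟨0, 1, 0, 0⟩ := by simp [eg2]
  have hk : κ ^ 2 = σ ^ 2 + 1 := by linarith
  have coord : ∀ (u : V) (s : ℝ), s ^ 2 = σ ^ 2 → B u u = 1 → B u tt = -s → B u zz = κ →
      (g ∘ f) u = ⟨s, κ, 0, 0⟩ := by
    intro u s hs hu h1 h2
    have a1 := hF u tt
    have a2 := hF u zz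
    have a3 := hF u u
    rw [Ft, h1] at a1
    rw [Fz, h2] at a2
    rw [hu] at a3
    set w := (g ∘ f) u
    have c1 : w.t = s := by simpa [B] using a1
    have c2 : w.z = κ := by simpa [B] using a2
    unfold B at a3
    rw [c1, c2] at a3
    have c3 : w.x = 0 := by nlinarith [mul_self_nonneg w.x, mul_self_nonneg w.y]
    have c4 : w.y = 0 := by nlinarith [mul_self_nonneg w.x, mul_self_nonneg w.y]
    exact V.ext' c1 c2 c3 c4
  exact ⟨g ∘ f, σ, κ, hF, hσ, hκ, hk, coord A σ rfl hA At Az,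
    coord C (-σ) (by ring) hC (by simpa using Ct) Cz⟩

end Pool.Agent.P.MP_7578b2_co
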