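import Pool.Agent.P.MP_7578b2_co.Gadget

/-!
Countable configurations forcing the distance of two discs in every representation.
-/

namespace Pool.Agent.P.MP_7578b2_co

open Real

/-- A property of representations is forced by some countable configuration. -/
def Forced (P : (V → V) → Prop) : Prop :=
  ∃ S : Set V, S.Countable ∧ (∀ v ∈ S, B v v = 1) ∧ ∀ φ, Good S φ → P φ

theorem Good.mono {S S' : Set V} {φ : V → V} (h : Good S' φ) (hs : S ⊆ S') : Good S φ :=
  ⟨fun v hv => h.1 v (hs hv), fun v hv w hw => h.2 v (hs hv) w (hs hw)⟩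

theorem Forced.mono {P Q : (V → V) → Prop} (h : Forced P) (hPQ : ∀ φ, P φ → Q φ) : Forced Q := by
  obtain ⟨S, h1, h2, h3⟩ := h
  exact ⟨S, h1, h2, fun φ g => hPQ φ (h3 φ g)⟩

theorem Forced.all {P : ℕ → (V → V) → Prop} (h : ∀ n, Forced (P n)) :
    Forced (fun φ => ∀ n, P n φ) := by
  choose S h1 h2 h3 using h
  refine ⟨⋃ n, S n, Set.countable_iUnion h1, ?_, fun φ g n => h3 n φ (g.mono ?_)⟩
  · intro v hv
    obtain ⟨n, hn⟩ := Set.mem_iUnion.mp hv
    exact h2 n v hn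
  · exact Set.subset_iUnion S n

theorem Forced.and {P Q : (V → V) → Prop} (h : Forced P) (h' : Forced Q) :
    Forced (fun φ => P φ ∧ Q φ) := by
  obtain ⟨S, h1, h2, h3⟩ := h
  obtain ⟨S', h1', h2', h3'⟩ := h'
  refine ⟨S ∪ S', h1.union h1', ?_, fun φ g =>
    ⟨h3 φ (g.mono Set.subset_union_left), h3' φ (g.mono Set.subset_union_right)⟩⟩
  rintro v (hv | hv)
  · exact h2 v hv
  · exact h2' v hv

theorem Forced.iso {P : (V → V) → Prop} {f : V → V} (hf : Iso f) (h : Forced P) :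
    Forced (fun φ => P (φ ∘ f)) := by
  obtain ⟨S, h1, h2, h3⟩ := h
  refine ⟨f '' S, h1.image f, ?_, fun φ g => h3 _ ⟨fun v hv => g.1 _ ⟨v, hv, rfl⟩, ?_⟩⟩
  · rintro _ ⟨v, hv, rfl⟩
    rw [hf]; exact h2 v hv
  · intro v hv w hw
    exact (g.2 _ ⟨v, hv, rfl⟩ _ ⟨w, hw, rfl⟩).trans hf.M

/-- The pencil of concentric circles. -/
noncomputable def C (s : ℝ) : V := ⟨sinh s, cosh s, 0, 0⟩

/-- Translation along the axis of the pencil. -/
noncomputable def boost (r : ℝ) (v : V) : V :=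
  ⟨cosh r * v.t + sinh r * v.z, sinh r * v.t + cosh r * v.z, v.x, v.y⟩

theorem boost_iso (r : ℝ) : Iso (boost r) := fun v w => by
  simp only [B, boost]; linear_combination (v.z * w.z - v.t * w.t) * cosh_sq r

theorem boost_C (r s : ℝ) : boost r (C s) = C (s + r) := by
  apply V.ext' <;> simp only [boost, C, sinh_add, cosh_add] <;> ring

theorem B_C (s s' : ℝ) : B (C s) (C s') = cosh (s - s') := by
  simp only [B, C, cosh_sub]; ring

theorem C_unit (s : ℝ) : B (C s) (C s) = 1 := by simp [B_C]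

theorem not_M_C {s s' : ℝ} (h : s ≠ s') : ¬ M (C s) (C s') := by
  unfold M
  rw [B_C, abs_of_pos (cosh_pos _), not_le]
  exact one_lt_cosh.mpr (sub_ne_zero.mpr h)

/-- Circles symmetric in the unit circle. -/
noncomputable def Pc (T μ α : ℝ) : V := ⟨T, 0, μ * cos α, μ * sin α⟩

theorem B_P (T μ α T' μ' α' : ℝ) :
    B (Pc T μ α) (Pc T' μ' α') = μ * μ' * cos (α - α') - T * T' := by
  simp only [B, Pc, cos_sub]; ring

theorem B_C_P (s T μ α : ℝ) : B (C s) (Pc T μ α) = -(sinh s * T) := by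
  simp only [B, Pc, C]; ring

theorem P_unit {T μ : ℝ} (h : μ ^ 2 = 1 + T ^ 2) (α : ℝ) : B (Pc T μ α) (Pc T μ α) = 1 := by
  rw [B_P]; simp; linarith

theorem M_C_P {s τ T : ℝ} (hs : |s| ≤ τ) (hT : 0 ≤ T) (h : sinh τ * T ≤ 1) (μ α : ℝ) :
    M (C s) (Pc T μ α) := by
  unfold M
  rw [B_C_P, abs_neg, abs_mul, abs_of_nonneg hT, abs_sinh]
  exact le_trans (mul_le_mul_of_nonneg_right (sinh_le_sinh.mpr hs) hT) h

/-- Steiner circle of an annulus of the pencil. -/
noncomputable def St (r h : ℝ) : V := boost r (Pc (1 / sinh h) (cosh h / sinh h) 0)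

theorem St_unit (r : ℝ) {h : ℝ} (hh : 0 < h) : B (St r h) (St r h) = 1 := by
  unfold St
  rw [boost_iso]
  apply P_unit
  have := (sinh_pos_iff.mpr hh).ne'
  field_simp
  exact cosh_sq h

theorem M_C_St {s r h : ℝ} (hh : 0 < h) : M (C s) (St r h) ↔ |s - r| ≤ h := by
  have h0 := sinh_pos_iff.mpr hh
  unfold M St
  rw [show C s = boost r (C (s - r)) by rw [boost_C]; simp, boost_iso, B_C_P, abs_neg, abs_mul,
    abs_sinh, abs_of_pos (by positivity : 0 < 1 / sinh h), mul_one_div, div_le_one h0,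
    sinh_le_sinh]

theorem cos_a : cos (2 * π / 3) = -(1 / 2) := by
  rw [show 2 * π / 3 = π - π / 3 by ring, cos_pi_sub, cos_pi_div_three]
theorem cos_b : cos (4 * π / 3) = -(1 / 2) := by
  rw [show 4 * π / 3 = π / 3 + π by ring, cos_add_pi, cos_pi_div_three]
theorem cos_c : cos (5 * π / 3) = 1 / 2 := by
  rw [show 5 * π / 3 = 2 * π - π / 3 by ring, cos_two_pi_sub, cos_pi_div_three]

theorem tri_model {T μ : ℝ} (hμ : 0 < μ) (h : μ ^ 2 = 1 + T ^ 2) (h1 : 1 / 3 < T ^ 2)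
    (h2 : T ^ 2 ≤ 3) :
    Tri (Pc T μ (π / 6)) (Pc T μ (5 * π / 6)) (Pc T μ (3 * π / 2))
      (Pc 0 1 (7 * π / 6)) (Pc 0 1 (11 * π / 6)) (Pc 0 1 (π / 2)) := by
  have w : (1 : ℝ) ^ 2 = 1 + 0 ^ 2 := by norm_num
  have μ1 : 1 < μ := by nlinarith
  have μ2 : μ ≤ 2 := by nlinarith
  have n1 : ∀ a b, cos (a - b) = -(1 / 2) → ¬ M (Pc T μ a) (Pc T μ b) := fun a b e m => by
    have := m.ge
    rw [B_P, e] at this; nlinarith
  have n2 : ∀ a b, cos (a - b) = -1 → ¬ M (Pc 0 1 a) (Pc T μ b) := fun a b e m => by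
    have := m.ge
    rw [B_P, e] at this; nlinarith
  have n3 : ∀ a b, cos (a - b) = 1 / 2 → M (Pc 0 1 a) (Pc T μ b) := fun a b e => by
    unfold M
    rw [B_P, e, abs_le]; constructor <;> nlinarith
  refine ⟨P_unit h _, P_unit h _, P_unit h _, P_unit w _, P_unit w _, P_unit w _,
    n1 _ _ ?_, n1 _ _ ?_, n1 _ _ ?_, n2 _ _ ?_, n3 _ _ ?_, n3 _ _ ?_, n3 _ _ ?_, n2 _ _ ?_,
    n3 _ _ ?_, n3 _ _ ?_, n3 _ _ ?_, n2 _ _ ?_⟩
  · rw [show π / 6 - 5 * π / 6 = -(2 * π / 3) by ring, cos_neg, cos_a]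
  · rw [show 5 * π / 6 - 3 * π / 2 = -(2 * π / 3) by ring, cos_neg, cos_a]
  · rw [show π / 6 - 3 * π / 2 = -(4 * π / 3) by ring, cos_neg, cos_b]
  · rw [show 7 * π / 6 - π / 6 = π by ring, cos_pi]
  · rw [show 7 * π / 6 - 5 * π / 6 = π / 3 by ring, cos_pi_div_three]
  · rw [show 7 * π / 6 - 3 * π / 2 = -(π / 3) by ring, cos_neg, cos_pi_div_three]
  · rw [show 11 * π / 6 - π / 6 = 5 * π / 3 by ring, cos_c]
  · rw [show 11 * π / 6 - 5 * π / 6 = π by ring, cos_pi]
  · rw [show 11 * π / 6 - 3 * π / 2 = π / 3 by ring, cos_pi_div_three]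
  · rw [show π / 2 - π / 6 = π / 3 by ring, cos_pi_div_three]
  · rw [show π / 2 - 5 * π / 6 = -(π / 3) by ring, cos_neg, cos_pi_div_three]
  · rw [show π / 2 - 3 * π / 2 = -π by ring, cos_neg, cos_pi]

theorem exists_tri {τ : ℝ} (hτ : 0 < τ) (h : cosh (2 * τ) < 7) :
    ∃ D1 D2 D3 W1 W2 W3, Tri D1 D2 D3 W1 W2 W3 ∧
      ∀ s, |s| ≤ τ → M (C s) D1 ∧ M (C s) D2 ∧ M (C s) D3 := by
  have h0 := sinh_pos_iff.mpr hτ
  have h1 : sinh τ ^ 2 < 3 := by
    rw [cosh_two_mul, cosh_sq] at h; linarith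
  obtain ⟨T, t0, t1, t2, t3⟩ : ∃ T : ℝ, 0 ≤ T ∧ 1 / 3 < T ^ 2 ∧ T ^ 2 ≤ 3 ∧ sinh τ * T ≤ 1 := by
    rcases le_total (sinh τ) 1 with t | t
    · exact ⟨1, by norm_num, by norm_num, by norm_num, by linarith⟩
    · refine ⟨1 / sinh τ, by positivity, ?_, ?_, by rw [mul_one_div, div_self h0.ne']⟩
      · rw [div_pow, one_pow, div_lt_div_iff₀ (by norm_num) (by positivity)]; linarith
      · rw [div_pow, one_pow, div_le_iff₀ (by positivity)]; nlinarith
  have hμ : 0 < √(1 + T ^ 2) := Real.sqrt_pos.mpr (by positivity)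
  exact ⟨_, _, _, _, _, _, tri_model hμ (Real.sq_sqrt (by positivity)) t1 t2,
    fun s hs => ⟨M_C_P hs t0 t3 _ _, M_C_P hs t0 t3 _ _, M_C_P hs t0 t3 _ _⟩⟩

/-- Hyperbolic distance of the representatives of two circles of the pencil. -/
noncomputable def Dst (φ : V → V) (a b : ℝ) : ℝ := arcosh |B (φ (C a)) (φ (C b))|

theorem Dst_comm (φ : V → V) (a b : ℝ) : Dst φ a b = Dst φ b a := by
  unfold Dst; rw [B_comm]

theorem Dst_boost (φ : V → V) (r a b : ℝ) : Dst (φ ∘ boost r) a b = Dst φ (a + r) (b + r) := by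
  simp only [Dst, Function.comp, boost_C]

theorem forced_upper0 {τ : ℝ} (hτ : 0 < τ) (h : cosh (2 * τ) < 7) :
    Forced (fun φ => Dst φ (-τ) τ < arcosh 7) := by
  obtain ⟨D1, D2, D3, W1, W2, W3, T, hD⟩ := exists_tri hτ h
  have hA := hD (-τ) (by rw [abs_neg, abs_of_pos hτ])
  have hC := hD τ (by rw [abs_of_pos hτ])
  have hne : ¬ M (C (-τ)) (C τ) := not_M_C (by linarith)
  refine ⟨{C (-τ), C τ, D1, D2, D3, W1, W2, W3}, Set.Finite.countable (Set.toFinite _), ?_, ?_⟩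
  · intro v hv
    simp only [Set.mem_insert_iff, Set.mem_singleton_iff] at hv
    rcases hv with rfl | rfl | rfl | rfl | rfl | rfl | rfl | rfl
    exacts [C_unit _, C_unit _, T.u1, T.u2, T.u3, T.v1, T.v2, T.v3]
  · intro φ g
    have hne' : ¬ M (φ (C (-τ))) (φ (C τ)) := by
      rw [g.2 _ (by simp) _ (by simp)]; exact hne
    have := upper_gadget (g.1 (C (-τ)) (by simp)) (g.1 (C τ) (by simp)) hne'
      (T.map g (by simp) (by simp) (by simp) (by simp) (by simp) (by simp))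
      ((g.2 _ (by simp) _ (by simp)).mpr hA.1) ((g.2 _ (by simp) _ (by simp)).mpr hA.2.1)
      ((g.2 _ (by simp) _ (by simp)).mpr hA.2.2)
      ((g.2 _ (by simp) _ (by simp)).mpr hC.1) ((g.2 _ (by simp) _ (by simp)).mpr hC.2.1)
      ((g.2 _ (by simp) _ (by simp)).mpr hC.2.2)
    unfold M at hne'
    exact (arcosh_lt_arcosh (by linarith [not_le.mp hne']) (by norm_num)).mpr this

theorem forced_between0 {τ e : ℝ} (h : cosh (2 * τ) < 7) (e1 : -τ < e) (e2 : e < τ) :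
    Forced (fun φ => Dst φ (-τ) e + Dst φ e τ ≤ Dst φ (-τ) τ) := by
  have hτ : 0 < τ := by linarith
  obtain ⟨D1, D2, D3, W1, W2, W3, T, hD⟩ := exists_tri hτ h
  have hA := hD (-τ) (by rw [abs_neg, abs_of_pos hτ])
  have hC := hD τ (by rw [abs_of_pos hτ])
  have hE := hD e (abs_le.mpr ⟨e1.le, e2.le⟩)
  have r1 : 0 < (e + τ) / 2 := by linarith
  have r2 : 0 < (τ - e) / 2 := by linarith
  set WA := St ((e - τ) / 2) ((e + τ) / 2) with hWA
  set WC := St ((e + τ) / 2) ((τ - e) / 2) with hWC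
  have p1 : M (C (-τ)) WA := (M_C_St r1).mpr (abs_le.mpr ⟨by linarith, by linarith⟩)
  have p2 : M (C e) WA := (M_C_St r1).mpr (abs_le.mpr ⟨by linarith, by linarith⟩)
  have p3 : ¬ M (C τ) WA := fun m => by
    have := (abs_le.mp ((M_C_St r1).mp m)).2; linarith
  have q1 : ¬ M (C (-τ)) WC := fun m => by
    have := (abs_le.mp ((M_C_St r2).mp m)).1; linarith
  have q2 : M (C e) WC := (M_C_St r2).mpr (abs_le.mpr ⟨by linarith, by linarith⟩)
  have q3 : M (C τ) WC := (M_C_St r2).mpr (abs_le.mpr ⟨by linarith, by linarith⟩)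
  refine ⟨{C (-τ), C τ, C e, D1, D2, D3, W1, W2, W3, WA, WC},
    Set.Finite.countable (Set.toFinite _), ?_, ?_⟩
  · intro v hv
    simp only [Set.mem_insert_iff, Set.mem_singleton_iff] at hv
    rcases hv with rfl | rfl | rfl | rfl | rfl | rfl | rfl | rfl | rfl | rfl | rfl
    exacts [C_unit _, C_unit _, C_unit _, T.u1, T.u2, T.u3, T.v1, T.v2, T.v3, St_unit _ r1,
      St_unit _ r2]
  · intro φ g
    exact between_gadget (g.1 (C (-τ)) (by simp)) (g.1 (C τ) (by simp)) (g.1 (C e) (by simp))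
      (g.1 WA (by simp)) (g.1 WC (by simp))
      ((g.2 _ (by simp) _ (by simp)).not.mpr (not_M_C (by linarith)))
      ((g.2 _ (by simp) _ (by simp)).not.mpr (not_M_C (by linarith)))
      ((g.2 _ (by simp) _ (by simp)).not.mpr (not_M_C (by linarith)))
      (T.map g (by simp) (by simp) (by simp) (by simp) (by simp) (by simp))
      ((g.2 _ (by simp) _ (by simp)).mpr hA.1) ((g.2 _ (by simp) _ (by simp)).mpr hA.2.1)
      ((g.2 _ (by simp) _ (by simp)).mpr hA.2.2)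
      ((g.2 _ (by simp) _ (by simp)).mpr hC.1) ((g.2 _ (by simp) _ (by simp)).mpr hC.2.1)
      ((g.2 _ (by simp) _ (by simp)).mpr hC.2.2)
      ((g.2 _ (by simp) _ (by simp)).mpr hE.1) ((g.2 _ (by simp) _ (by simp)).mpr hE.2.1)
      ((g.2 _ (by simp) _ (by simp)).mpr hE.2.2)
      ((g.2 _ (by simp) _ (by simp)).mpr p1) ((g.2 _ (by simp) _ (by simp)).mpr p2)
      ((g.2 _ (by simp) _ (by simp)).not.mpr p3) ((g.2 _ (by simp) _ (by simp)).not.mpr q1)
      ((g.2 _ (by simp) _ (by simp)).mpr q2) ((g.2 _ (by simp) _ (by simp)).mpr q3)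

/-- Witness circles tangent to the unit circle. -/
noncomputable def Wt (c e α : ℝ) : V := ⟨c, e, c * cos α, c * sin α⟩

theorem Wt_unit (c : ℝ) {e : ℝ} (he : e ^ 2 = 1) (α : ℝ) : B (Wt c e α) (Wt c e α) = 1 := by
  simp only [B, Wt]; linear_combination he + c ^ 2 * cos_sq_add_sin_sq α

theorem B_C_Wt (s c e α : ℝ) : B (C s) (Wt c e α) = cosh s * e - sinh s * c := by
  simp only [B, Wt, C]; ring

theorem B_P_Wt (T μ c e α : ℝ) : B (Pc T μ α) (Wt c e α) = c * (μ - T) := by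
  simp only [B, Wt, Pc]; linear_combination μ * c * cos_sq_add_sin_sq α

theorem forced_lower0 {τ : ℝ} {m : ℕ} (hm : 2 ≤ m) (hτ : 0 < τ)
    (h1 : 2 / cos (π / (3 * m)) ^ 2 - 1 < cosh (2 * τ)) (h2 : cosh (2 * τ) ≤ 5 / 3) :
    Forced (fun φ => arcosh (2 / cos (π / (3 * m)) ^ 2 - 1) ≤ Dst φ (-τ) τ) := by
  have hm' : (2 : ℝ) ≤ m := by exact_mod_cast hm
  set x := π / (3 * m) with hx
  have x0 : 0 < x := by positivity
  have xm : 3 * m * x = π := by rw [hx]; field_simp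
  have x1 : x ≤ π / 4 := by nlinarith
  have sx : 0 < sin x := sin_pos_of_pos_of_lt_pi x0 (by linarith [pi_pos])
  have cx : 0 < cos x := cos_pos_of_mem_Ioo ⟨by linarith, by linarith [pi_pos]⟩
  have sc : sin x ≤ cos x := by
    rw [← sin_pi_div_two_sub]
    exact sin_le_sin_of_le_of_le_pi_div_two (by linarith) (by linarith) (by linarith)
  have ss := cos_sq_add_sin_sq x
  have σ0 := sinh_pos_iff.mpr hτ
  have κ0 := cosh_pos τ
  have hk := cosh_sq τ
  rw [cosh_two_mul, cosh_sq] at h1 h2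
  set σ := sinh τ with hσ
  set κ := cosh τ with hκ
  have κ1 : 1 < κ := by nlinarith
  set T := cos x / sin x with hT
  set μ := 1 / sin x with hμ
  have T1 : 1 ≤ T := by rw [hT, le_div_iff₀ sx]; linarith
  have μ0 : 0 < μ := by positivity
  have μT : μ ^ 2 = 1 + T ^ 2 := by rw [hμ, hT]; field_simp; linarith
  have Tσ : 1 < σ * T := by
    have a : sin x ^ 2 < (σ * cos x) ^ 2 := by
      rw [sub_lt_iff_lt_add, div_lt_iff₀ (by positivity)] at h1
      nlinarith
    have b : sin x < σ * cos x := lt_of_pow_lt_pow_left₀ 2 (by positivity) a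
    rw [hT, ← mul_div_assoc, lt_div_iff₀ sx]; linarith
  have d1 : T ≤ μ := by nlinarith
  have d2 : μ - T ≤ 1 / 2 := by nlinarith
  have r3 : √3 ^ 2 = 3 := Real.sq_sqrt (by norm_num)
  have r30 : 0 ≤ √3 := Real.sqrt_nonneg _
  have r31 : 1 < √3 := by nlinarith
  have r32 : √3 < 2 := by nlinarith
  have rσ : σ * √3 ≤ 1 := by
    apply le_of_pow_le_pow_left₀ (n := 2) (by norm_num) (by norm_num)
    rw [mul_pow, r3]; linarith
  have TT := tri_model (T := √3) (μ := 2) (by norm_num) (by rw [r3]; norm_num)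
    (by rw [r3]; norm_num) (by rw [r3])
  set c := (κ - 1) / σ with hc
  have cσ : σ * c = κ - 1 := by rw [hc]; field_simp
  have c0 : 0 ≤ c := div_nonneg (by linarith) σ0.le
  have c1 : c ≤ 1 := by rw [hc, div_le_one σ0]; nlinarith
  let E : ℕ → V := fun k => Pc T μ (k * (2 * x))
  let WA : ℕ → V := fun k => Wt c (-1) (k * (2 * x))
  let WC : ℕ → V := fun k => Wt c 1 (k * (2 * x))
  have aτ : |-τ| ≤ τ := by rw [abs_neg, abs_of_pos hτ]
  have bτ : |τ| ≤ τ := by rw [abs_of_pos hτ]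
  have meet : ∀ a b, cos (a - b) = √3 / 2 → M (Pc T μ a) (Pc √3 2 b) := fun a b e => by
    unfold M
    rw [B_P, e, abs_le]; constructor <;> nlinarith
  have avoid : ∀ (k : ℕ), k ≤ m → ∀ a b, cos (a - b) = cos (k * (2 * x) + π / 2) →
      ¬ M (Pc T μ a) (Pc √3 2 b) := fun k hk a b e mm => by
    have hk' : (k : ℝ) ≤ m := by exact_mod_cast hk
    have k0 : (0 : ℝ) ≤ k * (2 * x) := by positivity
    have : cos (k * (2 * x) + π / 2) ≤ 0 :=
      cos_nonpos_of_pi_div_two_le_of_le (by linarith) (by nlinarith)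
    have t := mm.ge
    rw [B_P, e] at t
    nlinarith [mul_nonneg μ0.le (neg_nonneg.mpr this)]
  have wE : ∀ e α, M (Pc T μ α) (Wt c e α) := fun e α => by
    unfold M
    rw [B_P_Wt, abs_le]; constructor <;> nlinarith
  let S0 : Set V := {C (-τ), C τ, Pc √3 2 (π / 6), Pc √3 2 (5 * π / 6), Pc √3 2 (3 * π / 2),
      Pc 0 1 (7 * π / 6), Pc 0 1 (11 * π / 6), Pc 0 1 (π / 2)}
  let S : Set V := S0 ∪ (Set.range E ∪ (Set.range WA ∪ Set.range WC))
  have s1 : C (-τ) ∈ S := Or.inl (by simp [S0])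
  have s2 : C τ ∈ S := Or.inl (by simp [S0])
  have s3 : Pc √3 2 (π / 6) ∈ S := Or.inl (by simp [S0])
  have s4 : Pc √3 2 (5 * π / 6) ∈ S := Or.inl (by simp [S0])
  have s5 : Pc √3 2 (3 * π / 2) ∈ S := Or.inl (by simp [S0])
  have s6 : Pc 0 1 (7 * π / 6) ∈ S := Or.inl (by simp [S0])
  have s7 : Pc 0 1 (11 * π / 6) ∈ S := Or.inl (by simp [S0])
  have s8 : Pc 0 1 (π / 2) ∈ S := Or.inl (by simp [S0])
  refine ⟨S,
    (Set.Finite.countable (Set.toFinite _)).union ((Set.countable_range _).union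
      ((Set.countable_range _).union (Set.countable_range _))), ?_, ?_⟩
  · rintro v (hv | ⟨k, rfl⟩ | ⟨k, rfl⟩ | ⟨k, rfl⟩)
    · simp only [S0, Set.mem_insert_iff, Set.mem_singleton_iff] at hv
      rcases hv with rfl | rfl | rfl | rfl | rfl | rfl | rfl | rfl
      exacts [C_unit _, C_unit _, TT.u1, TT.u2, TT.u3, TT.v1, TT.v2, TT.v3]
    · exact P_unit μT _
    · exact Wt_unit _ (by norm_num) _
    · exact Wt_unit _ (by norm_num) _
  · intro φ g
    have mE : ∀ k, E k ∈ S := fun k => Or.inr (Or.inl ⟨k, rfl⟩)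
    have mA : ∀ k, WA k ∈ S := fun k => Or.inr (Or.inr (Or.inl ⟨k, rfl⟩))
    have mC : ∀ k, WC k ∈ S := fun k => Or.inr (Or.inr (Or.inr ⟨k, rfl⟩))
    have mL := g.2 (C (-τ)) s1
    have mR := g.2 (C τ) s2
    have := lower_gadget (g.1 (C (-τ)) s1) (g.1 (C τ) s2)
      ((mL _ s2).not.mpr (not_M_C (by linarith)))
      (TT.map g s3 s4 s5 s6 s7 s8)
      ((mL _ s3).mpr (M_C_P aτ r30 rσ _ _))
      ((mL _ s4).mpr (M_C_P aτ r30 rσ _ _))
      ((mL _ s5).mpr (M_C_P aτ r30 rσ _ _))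
      ((mR _ s3).mpr (M_C_P bτ r30 rσ _ _))
      ((mR _ s4).mpr (M_C_P bτ r30 rσ _ _))
      ((mR _ s5).mpr (M_C_P bτ r30 rσ _ _))
      m (by omega) (fun k => φ (E k)) (fun k => φ (WA k)) (fun k => φ (WC k))
      (fun k => g.1 _ (mE k)) (fun k => g.1 _ (mA k)) (fun k => g.1 _ (mC k))
      (fun k => (mL _ (mE k)).not.mpr (fun mm => by
        have := mm.le
        simp only [E, B_C_P, sinh_neg] at this; linarith))
      (fun k => (mR _ (mE k)).not.mpr (fun mm => by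
        have := mm.ge
        simp only [E, B_C_P] at this; linarith))
      (fun k => (mL _ (mA k)).mpr (by
        unfold M
        simp only [WA, B_C_Wt, sinh_neg, cosh_neg]
        rw [abs_le]; constructor <;> linarith))
      (fun k => (g.2 _ (mE k) _ (mA k)).mpr (wE _ _))
      (fun k => (mR _ (mA k)).not.mpr (fun mm => by
        have := mm.ge
        simp only [WA, B_C_Wt] at this; linarith))
      (fun k => (mL _ (mC k)).not.mpr (fun mm => by
        have := mm.le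
        simp only [WC, B_C_Wt, sinh_neg, cosh_neg] at this; linarith))
      (fun k => (g.2 _ (mE k) _ (mC k)).mpr (wE _ _))
      (fun k => (mR _ (mC k)).mpr (by
        unfold M
        simp only [WC, B_C_Wt]
        rw [abs_le]; constructor <;> linarith))
      (fun k => (g.2 _ (mE k) _ (mE (k + 1))).mpr (by
        unfold M
        simp only [E, B_P]
        rw [show (k : ℝ) * (2 * x) - ((k + 1 : ℕ) : ℝ) * (2 * x) = -(2 * x) by push_cast; ring,
          cos_neg, cos_two_mul]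
        have : μ * μ * (2 * cos x ^ 2 - 1) - T * T = -1 := by
          rw [hμ, hT]; field_simp; linarith
        rw [this]; norm_num))
      (by
        show φ (E (3 * m)) = φ (E 0)
        congr 1
        simp only [E, Pc]
        rw [show ((3 * m : ℕ) : ℝ) * (2 * x) = 2 * π by push_cast; linarith]
        simp)
      ((g.2 _ (mE 0) _ s3).mpr (meet _ _ (by
        rw [show ((0 : ℕ) : ℝ) * (2 * x) - π / 6 = -(π / 6) by push_cast; ring, cos_neg,
          cos_pi_div_six])))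
      ((g.2 _ (mE m) _ s4).mpr (meet _ _ (by
        rw [show (m : ℝ) * (2 * x) - 5 * π / 6 = -(π / 6) by linarith, cos_neg,
          cos_pi_div_six])))
      ((g.2 _ (mE (2 * m)) _ s5).mpr (meet _ _ (by
        rw [show ((2 * m : ℕ) : ℝ) * (2 * x) - 3 * π / 2 = -(π / 6) by push_cast; linarith,
          cos_neg, cos_pi_div_six])))
      (fun k hk => (g.2 _ (mE k) _ s5).not.mpr (avoid k hk _ _ (by
        rw [show (k : ℝ) * (2 * x) + π / 2 = (k * (2 * x) - 3 * π / 2) + 2 * π by ring,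
          cos_add_two_pi])))
      (fun k hk => (g.2 _ (mE (m + k)) _ s3).not.mpr (avoid k hk _ _ (by
        congr 1; push_cast; linarith)))
      (fun k hk => (g.2 _ (mE (2 * m + k)) _ s4).not.mpr (avoid k hk _ _ (by
        congr 1; push_cast; linarith)))
    have pos : 0 < 2 / cos x ^ 2 - 1 := by
      rw [sub_pos, lt_div_iff₀ (by positivity)]; nlinarith
    exact (arcosh_le_arcosh pos (lt_of_lt_of_le pos this)).mpr this

end Pool.Agent.P.MP_7578b2_co
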