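import Pool.Agent.P.MP_7578b2_co.Geom

/-!
The three gadgets: upper bound, betweenness, lower bound.
-/

namespace Pool.Agent.P.MP_7578b2_co

open Real

set_option linter.unusedSectionVars false

/-- Three pairwise disjoint discs with witnesses that none separates the other two. -/
structure Tri (D1 D2 D3 W1 W2 W3 : V) : Prop where
  u1 : B D1 D1 = 1
  u2 : B D2 D2 = 1
  u3 : B D3 D3 = 1
  v1 : B W1 W1 = 1
  v2 : B W2 W2 = 1
  v3 : B W3 W3 = 1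
  h12 : ¬ M D1 D2
  h23 : ¬ M D2 D3
  h13 : ¬ M D1 D3
  x1 : ¬ M W1 D1
  x2 : M W1 D2
  x3 : M W1 D3
  y1 : M W2 D1
  y2 : ¬ M W2 D2
  y3 : M W2 D3
  z1 : M W3 D1
  z2 : M W3 D2
  z3 : ¬ M W3 D3

theorem Tri.orient {D1 D2 D3 W1 W2 W3 : V} (h : Tri D1 D2 D3 W1 W2 W3) :
    ∃ X Y Z, Sg D1 X ∧ Sg D2 Y ∧ Sg D3 Z ∧ Ext X Y ∧ Ext X Z ∧ Ext Y Z :=
  ext3 h.u1 h.u2 h.u3 h.v1 h.v2 h.v3 h.h12 h.h23 h.h13 h.x1 h.x2 h.x3 h.y1 h.y2 h.y3
    h.z1 h.z2 h.z3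

/-- `φ` represents the intersection pattern of `S`. -/
def Good (S : Set V) (φ : V → V) : Prop :=
  (∀ v ∈ S, B (φ v) (φ v) = 1) ∧ ∀ v ∈ S, ∀ w ∈ S, (M (φ v) (φ w) ↔ M v w)

theorem Iso.good {f : V → V} (h : Iso f) : Good {v | B v v = 1} f :=
  ⟨fun v hv => by rw [h]; exact hv, fun _ _ _ _ => h.M⟩

theorem Tri.map {S : Set V} {φ : V → V} (g : Good S φ) {D1 D2 D3 W1 W2 W3 : V}
    (h : Tri D1 D2 D3 W1 W2 W3) (a1 : D1 ∈ S) (a2 : D2 ∈ S) (a3 : D3 ∈ S)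
    (b1 : W1 ∈ S) (b2 : W2 ∈ S) (b3 : W3 ∈ S) :
    Tri (φ D1) (φ D2) (φ D3) (φ W1) (φ W2) (φ W3) :=
  ⟨g.1 _ a1, g.1 _ a2, g.1 _ a3, g.1 _ b1, g.1 _ b2, g.1 _ b3,
    by rw [g.2 _ a1 _ a2]; exact h.h12, by rw [g.2 _ a2 _ a3]; exact h.h23,
    by rw [g.2 _ a1 _ a3]; exact h.h13,
    by rw [g.2 _ b1 _ a1]; exact h.x1, by rw [g.2 _ b1 _ a2]; exact h.x2,
    by rw [g.2 _ b1 _ a3]; exact h.x3,
    by rw [g.2 _ b2 _ a1]; exact h.y1, by rw [g.2 _ b2 _ a2]; exact h.y2,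
    by rw [g.2 _ b2 _ a3]; exact h.y3,
    by rw [g.2 _ b3 _ a1]; exact h.z1, by rw [g.2 _ b3 _ a2]; exact h.z2,
    by rw [g.2 _ b3 _ a3]; exact h.z3⟩

theorem Tri.iso {f : V → V} (hf : Iso f) {D1 D2 D3 W1 W2 W3 : V}
    (h : Tri D1 D2 D3 W1 W2 W3) : Tri (f D1) (f D2) (f D3) (f W1) (f W2) (f W3) :=
  h.map hf.good h.u1 h.u2 h.u3 h.v1 h.v2 h.v3

theorem nf {A C : V} (hA : B A A = 1) (hC : B C C = 1) (h : ¬ M A C) :
    ∃ (f : V → V) (σ κ : ℝ), Iso f ∧ 0 < σ ∧ 0 < κ ∧ κ ^ 2 = σ ^ 2 + 1 ∧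
      (∀ v, |B A v| = |B ⟨σ, κ, 0, 0⟩ (f v)|) ∧ (∀ v, |B C v| = |B ⟨-σ, κ, 0, 0⟩ (f v)|) ∧
      |B A C| = 2 * σ ^ 2 + 1 := by
  obtain ⟨C', s, h1⟩ := exists_sg_pos h
  obtain ⟨f, σ, κ, hf, hσ, hκ, hk, e1, e2⟩ := normal_form hA (s.unit hC) h1
  refine ⟨f, σ, κ, hf, hσ, hκ, hk, fun v => by rw [← e1, hf], fun v => ?_, ?_⟩
  · rw [← e2, hf, s.abs_left]
  · rw [← s.abs_right, abs_of_pos (by linarith), ← hf, e1, e2]
    simp only [B]; linarith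

section
variable {σ κ : ℝ} (hσ : 0 < σ) (hκ : 0 < κ) (hk : κ ^ 2 = σ ^ 2 + 1)
include hσ hκ hk

theorem uA : B ⟨σ, κ, 0, 0⟩ ⟨σ, κ, 0, 0⟩ = 1 := by simp only [B]; linarith
theorem uC : B ⟨-σ, κ, 0, 0⟩ ⟨-σ, κ, 0, 0⟩ = 1 := by simp only [B]; linarith
theorem uAC : 1 < B ⟨σ, κ, 0, 0⟩ ⟨-σ, κ, 0, 0⟩ := by simp only [B]; nlinarith

theorem cross_of_meet {D : V} (hD : B D D = 1) (h1 : M ⟨σ, κ, 0, 0⟩ D)
    (h2 : M ⟨-σ, κ, 0, 0⟩ D) : Cross σ κ D := by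
  refine ⟨hD, ?_⟩
  have a1 := h1.le
  have a2 := h1.ge
  have a3 := h2.le
  have a4 := h2.ge
  simp only [B] at a1 a2 a3 a4
  rcases abs_cases D.z with ⟨e, _⟩ | ⟨e, _⟩ <;> rcases abs_cases D.t with ⟨e', _⟩ | ⟨e', _⟩ <;>
    rw [e, e'] <;> linarith

theorem inner_of {E : V} (hE : B E E = 1) (h1 : B ⟨σ, κ, 0, 0⟩ E < -1)
    (h2 : 1 < B ⟨-σ, κ, 0, 0⟩ E) : Inner σ κ E := by
  refine ⟨hE, ?_⟩
  simp only [B] at h1 h2
  rcases abs_cases E.z with ⟨e, _⟩ | ⟨e, _⟩ <;> rw [e] <;> linarith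

theorem dir_ne {X Y : V} {a b : ℝ} (hX : Cross σ κ X) (hY : Cross σ κ Y) (hx : Ext X Y)
    (ha : HasDir X a) (hb : HasDir Y b) : cos (b - a) ≠ 1 := by
  intro h
  have s := cos_sq_add_sin_sq a
  let p : V := ⟨1, 0, cos a, sin a⟩
  have hp : Pt p := ⟨one_pos, by simp only [B, p]; nlinarith⟩
  have hd : dir a p = 1 := by simp only [dir, p]; nlinarith
  have hκ1 : 1 ≤ κ := by nlinarith
  refine hx.no_pt hX.1 hY.1 hp (hX.steiner hσ hκ hk ha hp ?_) (hY.steiner hσ hκ hk hb hp ?_)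
  · rw [hd]; simpa [p] using hκ1
  · rw [dir_eq_of_cos h, hd]; simpa [p] using hκ1

theorem three_dirs {X Y Z : V} (hX : Cross σ κ X) (hY : Cross σ κ Y) (hZ : Cross σ κ Z)
    (xy : Ext X Y) (xz : Ext X Z) (yz : Ext Y Z) :
    ∃ a b c, HasDir X a ∧ HasDir Y b ∧ HasDir Z c ∧
      ((a < b ∧ b < c ∧ c < a + 2 * π) ∨ (a < c ∧ c < b ∧ b < a + 2 * π)) := by
  obtain ⟨a, ha, -, -⟩ := exists_dir (hX.ne hσ hκ hk) 0
  obtain ⟨b, hb, b1, b2⟩ := exists_dir (hY.ne hσ hκ hk) a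
  obtain ⟨c, hc, c1, c2⟩ := exists_dir (hZ.ne hσ hκ hk) a
  have n1 := dir_ne hσ hκ hk hX hY xy ha hb
  have n2 := dir_ne hσ hκ hk hX hZ xz ha hc
  have n3 := dir_ne hσ hκ hk hY hZ yz hb hc
  have b3 : b < a + 2 * π := lt_of_le_of_ne b2 (by rintro rfl; simp at n1)
  have c3 : c < a + 2 * π := lt_of_le_of_ne c2 (by rintro rfl; simp at n2)
  refine ⟨a, b, c, ha, hb, hc, ?_⟩
  rcases lt_trichotomy b c with h | h | h
  · exact Or.inl ⟨b1, h, c3⟩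
  · subst h; simp at n3
  · exact Or.inr ⟨c1, h, b3⟩

theorem k33_ord {X Y Z E : V} {a b c : ℝ} (hX : Cross σ κ X) (hY : Cross σ κ Y)
    (hZ : Cross σ κ Z) (xy : Ext X Y) (xz : Ext X Z) (yz : Ext Y Z)
    (ha : HasDir X a) (hb : HasDir Y b) (hc : HasDir Z c)
    (o1 : a < b) (o2 : b < c) (o3 : c < a + 2 * π)
    (hE : Inner σ κ E) (m1 : M E X) (m2 : M E Y) (m3 : M E Z) : False := by
  obtain ⟨φ, hφ, f1, f2⟩ := exists_dir (hE.ne hσ hκ hk) a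
  have a1 := closer hσ hκ hk hE hφ hY hb hX ha xy.symm m1
  have a2 := closer hσ hκ hk hE hφ hZ hc hX ha xz.symm m1
  have b1 := closer hσ hκ hk hE hφ hX ha hY hb xy m2
  have b2 := closer hσ hκ hk hE hφ hZ hc hY hb yz.symm m2
  have c1 := closer hσ hκ hk hE hφ hX ha hZ hc xz m3
  have c2 := closer hσ hκ hk hE hφ hY hb hZ hc yz m3
  rcases le_total φ b with h | h
  · have := arc_excl (δ := c - 2 * π) (lo := a) (hi := b) (x := φ) (by linarith) f1.le h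
      (by linarith)
    simp only [show ∀ u, u - (c - 2 * π) = (u - c) + 2 * π from fun u => by ring,
      cos_add_two_pi] at this
    rcases this with t | t <;> linarith
  rcases le_total φ c with h' | h'
  · have := arc_excl (δ := a) (lo := b) (hi := c) (x := φ) o1.le h h' o3.le
    rcases this with t | t <;> linarith
  · have := arc_excl (δ := b) (lo := c) (hi := a + 2 * π) (x := φ) o2.le h' f2 (by linarith)
    rw [show a + 2 * π - b = (a - b) + 2 * π by ring, cos_add_two_pi] at this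
    rcases this with t | t <;> linarith

theorem k33 {X Y Z E : V} (hX : Cross σ κ X) (hY : Cross σ κ Y)
    (hZ : Cross σ κ Z) (xy : Ext X Y) (xz : Ext X Z) (yz : Ext Y Z)
    (hE : Inner σ κ E) (m1 : M E X) (m2 : M E Y) (m3 : M E Z) : False := by
  obtain ⟨a, b, c, ha, hb, hc, h | h⟩ := three_dirs hσ hκ hk hX hY hZ xy xz yz
  · exact k33_ord hσ hκ hk hX hY hZ xy xz yz ha hb hc h.1 h.2.1 h.2.2 hE m1 m2 m3
  · exact k33_ord hσ hκ hk hX hZ hY xz xy yz.symm ha hc hb h.1 h.2.1 h.2.2 hE m1 m3 m2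

theorem ring_ord {X Y Z : V} {a b c : ℝ} (hX : Cross σ κ X) (hY : Cross σ κ Y)
    (hZ : Cross σ κ Z) (xy : Ext X Y) (xz : Ext X Z) (yz : Ext Y Z)
    (ha : HasDir X a) (hb : HasDir Y b) (hc : HasDir Z c)
    (o1 : a < b) (o2 : b < c) (o3 : c < a + 2 * π)
    (m : ℕ) (E : ℕ → V) (hE : ∀ k ≤ 3 * m, Inner σ κ (E k))
    (hm : ∀ k < 3 * m, M (E k) (E (k + 1))) (hcl : E (3 * m) = E 0)
    (m1 : M (E 0) X) (m2 : M (E m) Y) (m3 : M (E (2 * m)) Z)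
    (v3 : ∀ k ≤ m, ¬ M (E k) Z) (v1 : ∀ k ≤ m, ¬ M (E (m + k)) X)
    (v2 : ∀ k ≤ m, ¬ M (E (2 * m + k)) Y) :
    2 * π ≤ 3 * m * (2 * arccos (1 / κ)) := by
  have i0 := hE 0 (by omega)
  have i1 := hE m (by omega)
  have i2 := hE (2 * m) (by omega)
  obtain ⟨φ0, h0, f1, f2⟩ := exists_dir (i0.ne hσ hκ hk) (c - 2 * π)
  have a1 := closer hσ hκ hk i0 h0 hY hb hX ha xy.symm m1
  have a2 := closer hσ hκ hk i0 h0 hZ hc hX ha xz.symm m1
  have g0 : φ0 < b := by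
    by_contra hcon
    rcases arc_excl (δ := a) (lo := b) (hi := c) (x := φ0) o1.le (not_lt.mp hcon) (by linarith)
      o3.le with t | t <;> linarith
  have e0 : Ext (E 0) Z := ext_of_avoid hσ hκ hk i0 hZ hX.1 xz m1.symm (v3 0 (by omega))
  obtain ⟨φ1, h1, g1, g2, g3⟩ := segment hσ hκ hk m (fun k h => hE k (by omega))
    (fun k h => hm k (by omega)) hZ hc v3 e0 h0 (lo := c - 2 * π) (by simp) f1 (by linarith)
  have b1 := closer hσ hκ hk i1 h1 hX ha hY hb xy m2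
  have b2 := closer hσ hκ hk i1 h1 hZ hc hY hb yz.symm m2
  have g4 : a < φ1 := by
    by_contra hcon
    have := arc_excl (δ := b - 2 * π) (lo := c - 2 * π) (hi := a) (x := φ1) (by linarith) g1.le
      (not_lt.mp hcon) (by linarith)
    rw [show φ1 - (b - 2 * π) = (φ1 - b) + 2 * π by ring, cos_add_two_pi,
      show c - 2 * π - (b - 2 * π) = c - b by ring,
      show a - (b - 2 * π) = (a - b) + 2 * π by ring, cos_add_two_pi] at this
    rcases this with t | t <;> linarith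
  have e1 : Ext (E m) X := ext_of_avoid hσ hκ hk i1 hX hY.1 xy.symm m2.symm (v1 0 (by omega))
  obtain ⟨φ2, h2, g5, g6, g7⟩ := segment hσ hκ hk (E := fun k => E (m + k)) m
    (fun k h => hE _ (by omega)) (fun k h => hm _ (by omega)) hX ha v1 e1 h1 (lo := a) (by simp)
    g4 (by linarith)
  simp only [← two_mul] at h2
  have c1 := closer hσ hκ hk i2 h2 hX ha hZ hc xz m3
  have c2 := closer hσ hκ hk i2 h2 hY hb hZ hc yz m3
  have g8 : b < φ2 := by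
    by_contra hcon
    have := arc_excl (δ := c - 2 * π) (lo := a) (hi := b) (x := φ2) (by linarith) g5.le
      (not_lt.mp hcon) (by linarith)
    simp only [show ∀ u, u - (c - 2 * π) = (u - c) + 2 * π from fun u => by ring,
      cos_add_two_pi] at this
    rcases this with t | t <;> linarith
  have e2 : Ext (E (2 * m)) Y :=
    ext_of_avoid hσ hκ hk i2 hY hZ.1 yz.symm m3.symm (v2 0 (by omega))
  obtain ⟨φ3, h3, g9, g10, g11⟩ := segment hσ hκ hk (E := fun k => E (2 * m + k)) m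
    (fun k h => hE _ (by omega)) (fun k h => hm _ (by omega)) hY hb v2 e2 h2 (lo := b) (by simp)
    g8 (by linarith)
  simp only [show 2 * m + m = 3 * m by ring, hcl] at h3
  have := h0.far h3 (by linarith)
  have := (abs_le.mp g3).2
  have := (abs_le.mp g7).2
  have := (abs_le.mp g11).2
  linarith

theorem ring {X Y Z : V} (hX : Cross σ κ X) (hY : Cross σ κ Y)
    (hZ : Cross σ κ Z) (xy : Ext X Y) (xz : Ext X Z) (yz : Ext Y Z)
    (m : ℕ) (E : ℕ → V) (hE : ∀ k ≤ 3 * m, Inner σ κ (E k))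
    (hm : ∀ k < 3 * m, M (E k) (E (k + 1))) (hcl : E (3 * m) = E 0)
    (m1 : M (E 0) X) (m2 : M (E m) Y) (m3 : M (E (2 * m)) Z)
    (v3 : ∀ k ≤ m, ¬ M (E k) Z) (v1 : ∀ k ≤ m, ¬ M (E (m + k)) X)
    (v2 : ∀ k ≤ m, ¬ M (E (2 * m + k)) Y) :
    2 * π ≤ 3 * m * (2 * arccos (1 / κ)) := by
  obtain ⟨a, b, c, ha, hb, hc, h | h⟩ := three_dirs hσ hκ hk hX hY hZ xy xz yz
  · exact ring_ord hσ hκ hk hX hY hZ xy xz yz ha hb hc h.1 h.2.1 h.2.2 m E hE hm hcl m1 m2 m3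
      v3 v1 v2
  · refine ring_ord hσ hκ hk hX hZ hY xz xy yz.symm ha hc hb h.1 h.2.1 h.2.2 m
      (fun k => E (3 * m - k)) (fun k _ => hE _ (by omega)) (fun k h => ?_) (by simp [hcl])
      (by simpa [hcl] using m1) ?_ ?_ (fun k h => ?_) (fun k h => ?_) (fun k h => ?_)
    · have := hm (3 * m - (k + 1)) (by omega)
      rw [show 3 * m - (k + 1) + 1 = 3 * m - k by omega] at this
      exact this.symm
    · show M (E (3 * m - m)) Z
      rwa [show 3 * m - m = 2 * m by omega]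
    · show M (E (3 * m - 2 * m)) Y
      rwa [show 3 * m - 2 * m = m by omega]
    · show ¬ M (E (3 * m - k)) Y
      rw [show 3 * m - k = 2 * m + (m - k) by omega]
      exact v2 _ (by omega)
    · show ¬ M (E (3 * m - (m + k))) X
      rw [show 3 * m - (m + k) = m + (m - k) by omega]
      exact v1 _ (by omega)
    · show ¬ M (E (3 * m - (2 * m + k))) Z
      exact v3 _ (by omega)

theorem upper_nf {X Y Z : V} (hX : Cross σ κ X) (hY : Cross σ κ Y)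
    (hZ : Cross σ κ Z) (xy : Ext X Y) (xz : Ext X Z) (yz : Ext Y Z) : σ ^ 2 < 3 := by
  have bd : ∀ D : V, Cross σ κ D → |D.t * σ| ≤ 1 := fun D h => by
    rw [abs_mul, abs_of_pos hσ]
    linarith [h.2, mul_nonneg (abs_nonneg D.z) hκ.le]
  have b1 := abs_le.mp (bd X hX)
  have b2 := abs_le.mp (bd Y hY)
  have b3 := abs_le.mp (bd Z hZ)
  have h1 := hX.1
  have h2 := hY.1
  have h3 := hZ.1
  have h4 := xy.1
  have h5 := xz.1
  have h6 := yz.1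
  unfold B at h1 h2 h3 h4 h5 h6
  have a : 3 < (X.t + Y.t + Z.t) ^ 2 := by
    nlinarith [sq_nonneg (X.z + Y.z + Z.z), sq_nonneg (X.x + Y.x + Z.x),
      sq_nonneg (X.y + Y.y + Z.y)]
  have b : ((X.t + Y.t + Z.t) * σ) ^ 2 ≤ 3 ^ 2 := by
    apply sq_le_sq'
    · linarith [b1.1, b2.1, b3.1]
    · linarith [b1.2, b2.2, b3.2]
  rw [mul_pow] at b
  by_contra hc
  have : 0 < σ ^ 2 := by positivity
  nlinarith

theorem reverse_triangle {E : V} (hE : B E E = 1) (h1 : Lt ⟨-σ, κ, 0, 0⟩ E)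
    (h2 : Lt E ⟨σ, κ, 0, 0⟩) :
    arcosh (B E ⟨σ, κ, 0, 0⟩) + arcosh (B ⟨-σ, κ, 0, 0⟩ E) ≤ arcosh (2 * σ ^ 2 + 1) := by
  set a := B E ⟨σ, κ, 0, 0⟩ with ha
  set b := B ⟨-σ, κ, 0, 0⟩ E with hb
  have a1 : 1 < a := h2.1
  have b1 : 1 < b := h1.1
  have t1 : -σ < E.t := h1.2
  have t2 : E.t < σ := h2.2
  have ea : a = E.z * κ - E.t * σ := by rw [ha]; simp only [B]; ring
  have eb : b = E.z * κ + E.t * σ := by rw [hb]; simp only [B]; ring
  unfold B at hE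
  have hz : E.z ^ 2 = 1 + E.t ^ 2 - (E.x ^ 2 + E.y ^ 2) := by linarith
  have hh : 0 ≤ E.x ^ 2 + E.y ^ 2 := by positivity
  have p1 : 0 ≤ 2 * σ ^ 2 + 1 - a * b := by
    have : 2 * σ ^ 2 + 1 - a * b = σ ^ 2 - E.t ^ 2 + (E.x ^ 2 + E.y ^ 2) * κ ^ 2 := by
      rw [ea, eb]; linear_combination (-κ ^ 2) * hz - (1 + E.t ^ 2) * hk
    rw [this]
    have : E.t ^ 2 ≤ σ ^ 2 := sq_le_sq' t1.le t2.le
    have := mul_nonneg hh (sq_nonneg κ)
    linarith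
  have p2 : (a ^ 2 - 1) * (b ^ 2 - 1) ≤ (2 * σ ^ 2 + 1 - a * b) ^ 2 := by
    have : (2 * σ ^ 2 + 1 - a * b) ^ 2 - (a ^ 2 - 1) * (b ^ 2 - 1)
        = 4 * σ ^ 2 * κ ^ 2 * (E.x ^ 2 + E.y ^ 2) := by
      rw [ea, eb]
      linear_combination (-4 * σ ^ 2 * κ ^ 2) * hz - 4 * σ ^ 2 * (1 + E.t ^ 2) * hk
    have : 0 ≤ 4 * σ ^ 2 * κ ^ 2 * (E.x ^ 2 + E.y ^ 2) := by positivity
    linarith
  have p3 : cosh (arcosh a + arcosh b) ≤ 2 * σ ^ 2 + 1 := by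
    rw [cosh_add, cosh_arcosh a1.le, cosh_arcosh b1.le, sinh_arcosh a1.le, sinh_arcosh b1.le,
      ← Real.sqrt_mul (by nlinarith)]
    have := Real.sqrt_le_sqrt p2
    rw [Real.sqrt_sq p1] at this
    linarith
  have n : 0 ≤ arcosh a + arcosh b := add_nonneg (arcosh_nonneg a1.le) (arcosh_nonneg b1.le)
  rw [← arcosh_cosh n]
  exact (arcosh_le_arcosh (cosh_pos _) (by positivity)).mpr p3

end

/-- Upper bound gadget. -/
theorem upper_gadget {A C D1 D2 D3 W1 W2 W3 : V} (hA : B A A = 1) (hC : B C C = 1)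
    (h : ¬ M A C) (T : Tri D1 D2 D3 W1 W2 W3) (a1 : M A D1) (a2 : M A D2) (a3 : M A D3)
    (c1 : M C D1) (c2 : M C D2) (c3 : M C D3) : |B A C| < 7 := by
  obtain ⟨f, σ, κ, hf, hσ, hκ, hk, eA, eC, e⟩ := nf hA hC h
  have T' := T.iso hf
  obtain ⟨X, Y, Z, s1, s2, s3, xy, xz, yz⟩ := T'.orient
  unfold M at a1 a2 a3 c1 c2 c3
  rw [eA] at a1 a2 a3
  rw [eC] at c1 c2 c3
  have := upper_nf hσ hκ hk
    (cross_of_meet hσ hκ hk (s1.unit T'.u1) (s1.M_right.mpr a1) (s1.M_right.mpr c1))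
    (cross_of_meet hσ hκ hk (s2.unit T'.u2) (s2.M_right.mpr a2) (s2.M_right.mpr c2))
    (cross_of_meet hσ hκ hk (s3.unit T'.u3) (s3.M_right.mpr a3) (s3.M_right.mpr c3)) xy xz yz
  linarith

/-- Betweenness gadget. -/
theorem between_gadget {A C E D1 D2 D3 W1 W2 W3 WA WC : V} (hA : B A A = 1) (hC : B C C = 1)
    (hE : B E E = 1) (hWA : B WA WA = 1) (hWC : B WC WC = 1)
    (h : ¬ M A C) (h1 : ¬ M A E) (h2 : ¬ M C E)
    (T : Tri D1 D2 D3 W1 W2 W3) (a1 : M A D1) (a2 : M A D2) (a3 : M A D3)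
    (c1 : M C D1) (c2 : M C D2) (c3 : M C D3) (e1 : M E D1) (e2 : M E D2) (e3 : M E D3)
    (p1 : M A WA) (p2 : M E WA) (p3 : ¬ M C WA) (q1 : ¬ M A WC) (q2 : M E WC) (q3 : M C WC) :
    arcosh |B A E| + arcosh |B E C| ≤ arcosh |B A C| := by
  obtain ⟨f, σ, κ, hf, hσ, hκ, hk, eA, eC, e⟩ := nf hA hC h
  have T' := T.iso hf
  obtain ⟨X, Y, Z, s1, s2, s3, xy, xz, yz⟩ := T'.orient
  have mA : ∀ v, M A v ↔ M ⟨σ, κ, 0, 0⟩ (f v) := fun v => by unfold M; rw [eA]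
  have mC : ∀ v, M C v ↔ M ⟨-σ, κ, 0, 0⟩ (f v) := fun v => by unfold M; rw [eC]
  rw [mA] at a1 a2 a3 h1 p1 q1
  rw [mC] at c1 c2 c3 h2 p3 q3
  rw [← hf.M] at e1 e2 e3 p2 q2
  have cX := cross_of_meet hσ hκ hk (s1.unit T'.u1) (s1.M_right.mpr a1) (s1.M_right.mpr c1)
  have cY := cross_of_meet hσ hκ hk (s2.unit T'.u2) (s2.M_right.mpr a2) (s2.M_right.mpr c2)
  have cZ := cross_of_meet hσ hκ hk (s3.unit T'.u3) (s3.M_right.mpr a3) (s3.M_right.mpr c3)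
  obtain ⟨E', s, hs⟩ := exists_sg_pos h1
  have uE : B E' E' = 1 := s.unit (by rw [hf]; exact hE)
  have uWA : B (f WA) (f WA) = 1 := by rw [hf]; exact hWA
  have uWC : B (f WC) (f WC) = 1 := by rw [hf]; exact hWC
  have hA0 := uA hσ hκ hk
  have hC0 := uC hσ hκ hk
  have lCA : Lt ⟨-σ, κ, 0, 0⟩ ⟨σ, κ, 0, 0⟩ :=
    ⟨by rw [B_comm]; exact uAC hσ hκ hk, by show -σ < σ; linarith⟩
  rcases not_M (s.M_right.not.mpr h2) with h3 | h3
  · rcases lt_or_lt hA0 uE hs with l1 | l1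
    · exact absurd (witness hC0 hA0 uE uWC lCA l1 q3.symm (s.M_right.mpr q2.symm)).symm q1
    rcases lt_or_lt hC0 uE h3 with l2 | l2
    · have := reverse_triangle hσ hκ hk uE l2 l1
      rw [e, eA, B_comm E C, eC, ← s.abs_right, ← s.abs_right (u := ⟨-σ, κ, 0, 0⟩),
        abs_of_pos (by linarith), abs_of_pos (by linarith), B_comm _ E']
      exact this
    · exact absurd (witness uE hC0 hA0 uWA l2 lCA (s.M_right.mpr p2.symm) p1.symm).symm p3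
  · exfalso
    have i : Inner σ κ (ng E') :=
      inner_of hσ hκ hk (by simp [uE]) (by simp; linarith) (by simp; linarith)
    exact k33 hσ hκ hk cX cY cZ xy xz yz i
      (by rw [M_ng_left, s.M_left, s1.M_right]; exact e1)
      (by rw [M_ng_left, s.M_left, s2.M_right]; exact e2)
      (by rw [M_ng_left, s.M_left, s3.M_right]; exact e3)

/-- Lower bound gadget. -/
theorem lower_gadget {A C D1 D2 D3 W1 W2 W3 : V} (hA : B A A = 1) (hC : B C C = 1)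
    (h : ¬ M A C) (T : Tri D1 D2 D3 W1 W2 W3) (a1 : M A D1) (a2 : M A D2) (a3 : M A D3)
    (c1 : M C D1) (c2 : M C D2) (c3 : M C D3) (m : ℕ) (hm0 : 0 < m) (E WA WC : ℕ → V)
    (hE : ∀ k, B (E k) (E k) = 1) (hWA : ∀ k, B (WA k) (WA k) = 1)
    (hWC : ∀ k, B (WC k) (WC k) = 1)
    (h1 : ∀ k, ¬ M A (E k)) (h2 : ∀ k, ¬ M C (E k))
    (p1 : ∀ k, M A (WA k)) (p2 : ∀ k, M (E k) (WA k)) (p3 : ∀ k, ¬ M C (WA k))
    (q1 : ∀ k, ¬ M A (WC k)) (q2 : ∀ k, M (E k) (WC k)) (q3 : ∀ k, M C (WC k))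
    (hm : ∀ k, M (E k) (E (k + 1))) (hcl : E (3 * m) = E 0)
    (m1 : M (E 0) D1) (m2 : M (E m) D2) (m3 : M (E (2 * m)) D3)
    (v3 : ∀ k ≤ m, ¬ M (E k) D3) (v1 : ∀ k ≤ m, ¬ M (E (m + k)) D1)
    (v2 : ∀ k ≤ m, ¬ M (E (2 * m + k)) D2) :
    2 / cos (π / (3 * m)) ^ 2 - 1 ≤ |B A C| := by
  classical
  obtain ⟨f, σ, κ, hf, hσ, hκ, hk, eA, eC, e⟩ := nf hA hC h
  have T' := T.iso hf
  obtain ⟨X, Y, Z, s1, s2, s3, xy, xz, yz⟩ := T'.orient
  have mA : ∀ v, M A v ↔ M ⟨σ, κ, 0, 0⟩ (f v) := fun v => by unfold M; rw [eA]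
  have mC : ∀ v, M C v ↔ M ⟨-σ, κ, 0, 0⟩ (f v) := fun v => by unfold M; rw [eC]
  simp only [mA] at a1 a2 a3 h1 p1 q1
  simp only [mC] at c1 c2 c3 h2 p3 q3
  have cX := cross_of_meet hσ hκ hk (s1.unit T'.u1) (s1.M_right.mpr a1) (s1.M_right.mpr c1)
  have cY := cross_of_meet hσ hκ hk (s2.unit T'.u2) (s2.M_right.mpr a2) (s2.M_right.mpr c2)
  have cZ := cross_of_meet hσ hκ hk (s3.unit T'.u3) (s3.M_right.mpr a3) (s3.M_right.mpr c3)
  have hA0 := uA hσ hκ hk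
  have hC0 := uC hσ hκ hk
  let o : V → V := fun v => if B ⟨σ, κ, 0, 0⟩ v < -1 then v else ng v
  have so : ∀ v, Sg v (o v) := fun v => by
    by_cases hv : B ⟨σ, κ, 0, 0⟩ v < -1
    · left; simp [o, hv]
    · right; simp [o, hv]
  have bo : ∀ v, ¬ M ⟨σ, κ, 0, 0⟩ v → B ⟨σ, κ, 0, 0⟩ (o v) < -1 := fun v hv => by
    by_cases hv' : B ⟨σ, κ, 0, 0⟩ v < -1
    · simp [o, hv']
    · rcases not_M hv with t | t
      · simp only [o, if_neg hv', B_ng_right]; linarith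
      · exact absurd t hv'
  let F : ℕ → V := fun k => o (f (E k))
  have uF : ∀ k, B (F k) (F k) = 1 := fun k => (so _).unit (by rw [hf]; exact hE k)
  have mF : ∀ k v, M (F k) (f v) ↔ M (E k) v := fun k v => by
    rw [(so _).M_left, hf.M]
  have inn : ∀ k (D : V), B D D = 1 → M ⟨σ, κ, 0, 0⟩ (f D) → M ⟨-σ, κ, 0, 0⟩ (f D) →
      ¬ M (E k) D → Inner σ κ (F k) := by
    intro k D hD d1 d2 d3
    have b1 := bo _ (h1 k)
    rcases not_M ((so (f (E k))).M_right.not.mpr (h2 k)) with t | t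
    · exact inner_of hσ hκ hk (uF k) b1 t
    · exfalso
      refine no_chain (X := ⟨σ, κ, 0, 0⟩) (Y := ⟨-σ, κ, 0, 0⟩) (Z := ng (F k))
        (WX := f (WC k)) (WY := f (WA k)) (WZ := f D) hA0 hC0 (by simp [uF k])
        (by rw [hf]; exact hWC k) (by rw [hf]; exact hWA k) (by rw [hf]; exact hD)
        (uAC hσ hκ hk) (by simp only [B_ng_right, F]; linarith)
        (by simp only [B_ng_right, F]; linarith)
        (fun t => q1 k t.symm) (q3 k).symm ?_ (p1 k).symm (fun t => p3 k t.symm) ?_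
        d1.symm d2.symm ?_
      · rw [M_ng_right, M_comm, mF]; exact q2 k
      · rw [M_ng_right, M_comm, mF]; exact p2 k
      · rw [M_ng_right, M_comm, mF]; exact d3
  have key := ring hσ hκ hk cX cY cZ xy xz yz m F
    (fun k hk3 => by
      rcases le_total k m with t | t
      · exact inn k D3 T.u3 a3 c3 (v3 k t)
      rcases le_total k (2 * m) with t' | t'
      · refine inn k D1 T.u1 a1 c1 ?_
        have := v1 (k - m) (by omega)
        rwa [show m + (k - m) = k by omega] at this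
      · refine inn k D2 T.u2 a2 c2 ?_
        have := v2 (k - 2 * m) (by omega)
        rwa [show 2 * m + (k - 2 * m) = k by omega] at this)
    (fun k _ => by
      show M (F k) (o (f (E (k + 1))))
      rw [(so _).M_right, mF]; exact hm k)
    (by simp only [F, hcl])
    (by rw [s1.M_right, mF]; exact m1) (by rw [s2.M_right, mF]; exact m2)
    (by rw [s3.M_right, mF]; exact m3)
    (fun k t => by rw [s3.M_right, mF]; exact v3 k t)
    (fun k t => by rw [s1.M_right, mF]; exact v1 k t)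
    (fun k t => by rw [s2.M_right, mF]; exact v2 k t)
  have hm1 : (1 : ℝ) ≤ m := by exact_mod_cast hm0
  have k1 : π / (3 * m) ≤ arccos (1 / κ) := by
    rw [div_le_iff₀ (by positivity)]; linarith
  have hκ1 : 1 ≤ κ := by nlinarith
  have k2 : 1 / κ ≤ cos (π / (3 * m)) := by
    have := cos_le_cos_of_nonneg_of_le_pi (by positivity) (arccos_le_pi _) k1
    rwa [cos_arccos (le_trans (by norm_num) (by positivity : (0 : ℝ) ≤ 1 / κ))
      (by rw [div_le_one hκ]; exact hκ1)] at this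
  have k3 : 0 < cos (π / (3 * m)) := lt_of_lt_of_le (by positivity) k2
  rw [e]
  have k4 : 1 ≤ κ * cos (π / (3 * m)) := by
    rw [div_le_iff₀ hκ] at k2; linarith
  have k5 : 2 / cos (π / (3 * m)) ^ 2 ≤ 2 * κ ^ 2 := by
    rw [div_le_iff₀ (by positivity)]; nlinarith
  linarith

end Pool.Agent.P.MP_7578b2_co
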