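import Pool.Agent.P.MP_7578b2_co.Basic

/-!
Geometry in the normal form of a pair of disjoint discs.
-/

namespace Pool.Agent.P.MP_7578b2_co

open Real

/-- Oriented disc lying strictly inside the slab and not separating it. -/
def Inner (σ κ : ℝ) (E : V) : Prop := B E E = 1 ∧ 1 + |E.z| * κ < E.t * σ

/-- Disc meeting both boundary discs of the slab. -/
def Cross (σ κ : ℝ) (D : V) : Prop := B D D = 1 ∧ |D.z| * κ + |D.t| * σ ≤ 1

/-- The horizontal part of `E` points in direction `φ`. -/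
def HasDir (E : V) (φ : ℝ) : Prop := ∃ μ : ℝ, 0 < μ ∧ E.x = μ * cos φ ∧ E.y = μ * sin φ

/-- Component of the horizontal part in direction `φ`. -/
noncomputable def dir (φ : ℝ) (p : V) : ℝ := cos φ * p.x + sin φ * p.y

theorem exists_dir {E : V} (h : E.x ^ 2 + E.y ^ 2 ≠ 0) (a : ℝ) :
    ∃ φ, HasDir E φ ∧ a < φ ∧ φ ≤ a + 2 * π := by
  let w : ℂ := ⟨E.x, E.y⟩
  have hw : w ≠ 0 := by
    intro e
    have h1 : E.x = 0 := congrArg Complex.re e
    have h2 : E.y = 0 := congrArg Complex.im e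
    apply h; rw [h1, h2]; ring
  have hp : (0 : ℝ) < 2 * π := by positivity
  have hm := toIocMod_mem_Ioc hp a (Complex.arg w)
  refine ⟨toIocMod hp a (Complex.arg w), ⟨‖w‖, norm_pos_iff.mpr hw, ?_, ?_⟩, hm.1, hm.2⟩
  · rw [← self_sub_toIocDiv_zsmul, zsmul_eq_mul, cos_sub_int_mul_two_pi, Complex.norm_mul_cos_arg]
  · rw [← self_sub_toIocDiv_zsmul, zsmul_eq_mul, sin_sub_int_mul_two_pi, Complex.norm_mul_sin_arg]

theorem HasDir.cos_eq {E : V} {a b : ℝ} (ha : HasDir E a) (hb : HasDir E b) :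
    cos (b - a) = 1 := by
  obtain ⟨μ, hμ, a1, a2⟩ := ha
  obtain ⟨ν, hν, b1, b2⟩ := hb
  have s1 := cos_sq_add_sin_sq a
  have s2 := cos_sq_add_sin_sq b
  have e : μ ^ 2 = ν ^ 2 := by
    have : μ ^ 2 = E.x ^ 2 + E.y ^ 2 := by rw [a1, a2]; linear_combination (-μ ^ 2) * s1
    rw [this, b1, b2]; linear_combination (ν ^ 2) * s2
  have e' : μ = ν := by
    rcases sq_eq_sq_iff_eq_or_eq_neg.mp e with h | h
    · exact h
    · linarith
  subst e'
  have c1 : cos a = cos b := mul_left_cancel₀ hμ.ne' (a1.symm.trans b1)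
  have c2 : sin a = sin b := mul_left_cancel₀ hμ.ne' (a2.symm.trans b2)
  rw [cos_sub, c1, c2]; linear_combination s2

theorem HasDir.far {E : V} {a b : ℝ} (ha : HasDir E a) (hb : HasDir E b) (h : a < b) :
    a + 2 * π ≤ b := by
  obtain ⟨n, hn⟩ := (cos_eq_one_iff _).mp (ha.cos_eq hb)
  have hp : (0 : ℝ) < 2 * π := by positivity
  have h0 : (0 : ℝ) < n := by
    by_contra hc
    have : (n : ℝ) * (2 * π) ≤ 0 := mul_nonpos_of_nonpos_of_nonneg (not_lt.mp hc) hp.le
    linarith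
  have h1 : (1 : ℝ) ≤ n := by
    have : (0 : ℤ) < n := by exact_mod_cast h0
    exact_mod_cast this
  nlinarith

theorem dir_eq_of_cos {a b : ℝ} (h : cos (a - b) = 1) (p : V) : dir a p = dir b p := by
  have s : sin (a - b) = 0 := by
    have := cos_sq_add_sin_sq (a - b)
    rw [h] at this
    nlinarith [sq_nonneg (sin (a - b))]
  have c1 : cos a = cos b := by
    rw [show a = (a - b) + b by ring, cos_add, h, s]; ring
  have c2 : sin a = sin b := by
    rw [show a = (a - b) + b by ring, sin_add, h, s]; ring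
  unfold dir; rw [c1, c2]

set_option linter.unusedSectionVars false

section
variable {σ κ : ℝ} (hσ : 0 < σ) (hκ : 0 < κ) (hk : κ ^ 2 = σ ^ 2 + 1)
include hσ hκ hk

theorem Inner.t_pos {E : V} (h : Inner σ κ E) : 1 < E.t * σ := by
  have := mul_nonneg (abs_nonneg E.z) hκ.le
  linarith [h.2]

theorem Inner.ne {E : V} (h : Inner σ κ E) : E.x ^ 2 + E.y ^ 2 ≠ 0 := by
  have h1 := h.1
  have h2 := h.2
  unfold B at h1
  have hσκ : σ < κ := by nlinarith
  have a0 := abs_nonneg E.z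
  have a1 : |E.z| * σ ≤ |E.z| * κ := mul_le_mul_of_nonneg_left hσκ.le a0
  have a2 : |E.z| < E.t := by
    by_contra hc
    have := mul_le_mul_of_nonneg_right (not_lt.mp hc) hσ.le
    linarith
  have a3 : |E.z| ^ 2 < E.t ^ 2 := pow_lt_pow_left₀ a2 a0 (by norm_num)
  rw [sq_abs] at a3
  nlinarith

theorem Cross.ne {D : V} (h : Cross σ κ D) : D.x ^ 2 + D.y ^ 2 ≠ 0 := by
  have h1 := h.1
  have h2 := h.2
  unfold B at h1
  have hκ1 : 1 < κ := by nlinarith
  have a0 := abs_nonneg D.z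
  have a1 := mul_nonneg (abs_nonneg D.t) hσ.le
  have a2 : |D.z| < 1 := by
    by_contra hc
    have := mul_le_mul_of_nonneg_right (not_lt.mp hc) hκ.le
    linarith
  have a3 : |D.z| ^ 2 < 1 ^ 2 := pow_lt_pow_left₀ a2 a0 (by norm_num)
  rw [sq_abs] at a3
  nlinarith [sq_nonneg D.t]

/-- An inner half ball lies in the Steiner half ball of its direction. -/
theorem Inner.steiner {E p : V} {φ : ℝ} (h : Inner σ κ E) (hφ : HasDir E φ) (hp : Pt p)
    (hE : 0 ≤ B E p) : p.t < κ * dir φ p := by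
  obtain ⟨μ, hμ, ex, ey⟩ := hφ
  have s1 := cos_sq_add_sin_sq φ
  have h1 := h.1
  have h2 := h.2
  have ht := h.t_pos hσ hκ hk
  let S : V := ⟨1, 0, κ * cos φ, κ * sin φ⟩
  have hμ2 : μ ^ 2 = 1 + E.t ^ 2 - E.z ^ 2 := by
    unfold B at h1; rw [ex, ey] at h1; linear_combination h1 - μ ^ 2 * s1
  have a0 : (|E.z| * κ) ^ 2 < (E.t * σ - 1) ^ 2 :=
    pow_lt_pow_left₀ (by linarith) (mul_nonneg (abs_nonneg _) hκ.le) (by norm_num)
  rw [mul_pow, sq_abs] at a0
  have a1 : σ + E.t < μ * κ := by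
    apply lt_of_pow_lt_pow_left₀ 2 (mul_pos hμ hκ).le
    rw [mul_pow, hμ2]; nlinarith
  have BES : B E S = μ * κ - E.t := by
    simp only [B, S, ex, ey]; linear_combination μ * κ * s1
  have BSS : B S S = σ ^ 2 := by
    simp only [B, S]; linear_combination κ ^ 2 * s1 + hk
  have a2 : B (lc σ E (-1) S) (lc σ E (-1) S) < 0 := by
    rw [B_lc_left, B_lc_right, B_lc_right, B_comm S E, h1, BES, BSS]; nlinarith
  have a3 := fut_inner (u := lc σ E (-1) S) (by simp [S]; linarith) a2 hp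
  rw [B_lc_left] at a3
  have a4 : B S p = κ * dir φ p - p.t := by simp only [B, S, dir]; ring
  have := mul_nonneg hσ.le hE
  linarith

/-- A crossing half ball contains the Steiner half ball of its direction. -/
theorem Cross.steiner {D p : V} {φ : ℝ} (h : Cross σ κ D) (hφ : HasDir D φ) (hp : Pt p)
    (hS : p.t ≤ κ * dir φ p) : 0 ≤ B D p := by
  obtain ⟨μ, hμ, ex, ey⟩ := hφ
  have s1 := cos_sq_add_sin_sq φ
  have h1 := h.1
  have h2 := h.2
  let S : V := ⟨1, 0, κ * cos φ, κ * sin φ⟩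
  have hμ2 : μ ^ 2 = 1 + D.t ^ 2 - D.z ^ 2 := by
    unfold B at h1; rw [ex, ey] at h1; linear_combination h1 - μ ^ 2 * s1
  have b0 : D.t * σ ≤ |D.t| * σ := mul_le_mul_of_nonneg_right (le_abs_self _) hσ.le
  have b1 := mul_nonneg (abs_nonneg D.z) hκ.le
  have a0 : (|D.z| * κ) ^ 2 ≤ (1 - D.t * σ) ^ 2 :=
    pow_le_pow_left₀ b1 (by linarith) 2
  rw [mul_pow, sq_abs] at a0
  have a1 : σ + D.t ≤ μ * κ := by
    apply le_of_pow_le_pow_left₀ (n := 2) (by norm_num) (mul_pos hμ hκ).le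
    rw [mul_pow, hμ2]; nlinarith
  have BES : B D S = μ * κ - D.t := by
    simp only [B, S, ex, ey]; linear_combination μ * κ * s1
  have BSS : B S S = σ ^ 2 := by
    simp only [B, S]; linear_combination κ ^ 2 * s1 + hk
  have a2 : B (lc 1 S (-σ) D) (lc 1 S (-σ) D) ≤ 0 := by
    rw [B_lc_left, B_lc_right, B_lc_right, B_comm S D, h1, BES, BSS]; nlinarith
  have a3 := fut_inner_le (u := lc 1 S (-σ) D) (by simp [S]; linarith) a2 hp
  rw [B_lc_left] at a3
  have a4 : B S p = κ * dir φ p - p.t := by simp only [B, S, dir]; ring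
  by_contra hc
  have := mul_pos hσ (neg_pos.mpr (not_le.mp hc))
  linarith

/-- An inner disc meeting a barrier is angularly closer to it than any other barrier. -/
theorem closer {E Di Dj : V} {φ δi δj : ℝ} (hE : Inner σ κ E) (hφ : HasDir E φ)
    (hi : Cross σ κ Di) (hδi : HasDir Di δi) (hj : Cross σ κ Dj) (hδj : HasDir Dj δj)
    (hx : Ext Di Dj) (hm : M E Dj) : cos (δi - δj) < cos (φ - δj) := by
  obtain ⟨p, hp, p1, p2⟩ := meet_pt hE.1 hj.1 hm
  have a := hE.steiner hσ hκ hk hφ hp p1.ge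
  by_contra hc
  replace hc := not_lt.mp hc
  rcases le_or_gt (dir φ p) (dir δi p) with h | h
  · have := hi.steiner hσ hκ hk hδi hp (by nlinarith)
    exact hx.no_pt hi.1 hj.1 hp this p2.ge
  · obtain ⟨ν, hν, ex, ey⟩ := hδj
    have s1 := cos_sq_add_sin_sq φ
    have s2 := cos_sq_add_sin_sq δi
    rw [cos_sub, cos_sub] at hc
    unfold dir at h
    set e1 := cos φ
    set e2 := sin φ
    set d1 := cos δi
    set d2 := sin δi
    set n := (e1 - d1) ^ 2 + (e2 - d2) ^ 2 with hn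
    have n0 : 0 < n := by
      by_contra hn0
      have f1 : e1 - d1 = 0 := by nlinarith [sq_nonneg (e1 - d1), sq_nonneg (e2 - d2)]
      have f2 : e2 - d2 = 0 := by nlinarith [sq_nonneg (e1 - d1), sq_nonneg (e2 - d2)]
      have g1 : e1 = d1 := by linarith
      have g2 : e2 = d2 := by linarith
      rw [g1, g2] at h
      exact lt_irrefl _ h
    set c := 2 * ((e1 - d1) * p.x + (e2 - d2) * p.y) / n with hc'
    have c0 : 0 < c := div_pos (by linarith) n0
    have cn : c * n = 2 * ((e1 - d1) * p.x + (e2 - d2) * p.y) := by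
      rw [hc']; field_simp
    let q : V := ⟨p.t, p.z, p.x - c * (e1 - d1), p.y - c * (e2 - d2)⟩
    have hq : Pt q := by
      refine ⟨hp.1, ?_⟩
      have : B q q = B p p := by
        simp only [B, q]; rw [hn] at cn; linear_combination c * cn
      rw [this]; exact hp.2
    have q1 : dir δi q = dir φ p := by
      simp only [dir, q]; rw [hn] at cn
      linear_combination (1 / 2 : ℝ) * cn - (c / 2) * s1 + (c / 2) * s2
    have q2 : 0 ≤ B Dj q := by
      have : B Dj q = B Dj p + ν * c * ((d1 * cos δj + d2 * sin δj) - (e1 * cos δj + e2 * sin δj)) := by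
        simp only [B, q, ex, ey]; ring
      rw [this, p2]
      have := mul_nonneg (mul_pos hν c0).le (sub_nonneg.mpr hc)
      linarith
    have := hi.steiner hσ hκ hk hδi hq (by rw [q1]; exact a.le)
    exact hx.no_pt hi.1 hj.1 hq this q2

/-- One step of a chain of inner discs. -/
theorem step {E E' : V} {a : ℝ} (hE : Inner σ κ E) (ha : HasDir E a) (hE' : Inner σ κ E')
    (hm : M E E') : ∃ b, HasDir E' b ∧ |b - a| ≤ 2 * arccos (1 / κ) ∧
      ∃ p, Pt p ∧ B E p = 0 ∧ ∀ x ∈ Set.uIcc a b, p.t ≤ κ * dir x p := by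
  obtain ⟨p, hp, p1, p2⟩ := meet_pt hE.1 hE'.1 hm
  have h1 := hE.steiner hσ hκ hk ha hp p1.ge
  have hne : p.x ^ 2 + p.y ^ 2 ≠ 0 := by
    intro e
    have f1 : p.x = 0 := by nlinarith [sq_nonneg p.x, sq_nonneg p.y]
    have f2 : p.y = 0 := by nlinarith [sq_nonneg p.x, sq_nonneg p.y]
    simp [dir, f1, f2] at h1
    linarith [hp.1]
  obtain ⟨ω, ⟨r, hr, ex, ey⟩, w1, w2⟩ := exists_dir hne (a - π)
  obtain ⟨b, hb, b1, b2⟩ := exists_dir (hE'.ne hσ hκ hk) (ω - π)
  have h2 := hE'.steiner hσ hκ hk hb hp p2.ge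
  have hd : ∀ x, dir x p = r * cos (x - ω) := fun x => by
    simp only [dir, ex, ey, cos_sub]; ring
  have hrt : r ≤ p.t := by
    apply le_of_pow_le_pow_left₀ (n := 2) (by norm_num) hp.1.le
    have := hp.2
    unfold B at this
    rw [ex, ey] at this
    nlinarith [cos_sq_add_sin_sq ω, mul_self_nonneg p.z]
  have close : ∀ x, |x - ω| ≤ π → p.t < κ * dir x p → |x - ω| ≤ arccos (1 / κ) := by
    intro x hx h
    rw [hd] at h
    have : 1 / κ ≤ cos (x - ω) := by
      rw [div_le_iff₀ hκ]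
      by_contra hc
      have := mul_lt_mul_of_pos_left (not_le.mp hc) hr
      nlinarith
    have h3 := arccos_le_arccos this
    rwa [← cos_abs, arccos_cos (abs_nonneg _) hx] at h3
  have ha' : |a - ω| ≤ π := abs_le.mpr ⟨by linarith, by linarith⟩
  have hb' : |b - ω| ≤ π := abs_le.mpr ⟨by linarith, by linarith⟩
  have c1 := close a ha' h1
  have c2 := close b hb' h2
  refine ⟨b, hb, ?_, p, hp, p1, ?_⟩
  · have := abs_sub_le b ω a
    rw [abs_sub_comm ω a] at this
    linarith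
  · intro x hx
    have mono : ∀ c, |c - ω| ≤ π → |x - ω| ≤ |c - ω| → dir c p ≤ dir x p := by
      intro c hc h
      rw [hd, hd, ← cos_abs (c - ω), ← cos_abs (x - ω)]
      exact mul_le_mul_of_nonneg_left
        (cos_le_cos_of_nonneg_of_le_pi (abs_nonneg _) hc h) hr.le
    have : |x - ω| ≤ |a - ω| ∨ |x - ω| ≤ |b - ω| := by
      rcases Set.mem_uIcc.mp hx with ⟨x1, x2⟩ | ⟨x1, x2⟩ <;>
        rcases le_total 0 (x - ω) with h0 | h0
      · right; rw [abs_of_nonneg h0]; exact le_trans (by linarith) (le_abs_self _)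
      · left; rw [abs_of_nonpos h0]; exact le_trans (by linarith) (neg_le_abs _)
      · left; rw [abs_of_nonneg h0]; exact le_trans (by linarith) (le_abs_self _)
      · right; rw [abs_of_nonpos h0]; exact le_trans (by linarith) (neg_le_abs _)
    rcases this with h | h
    · have := mul_le_mul_of_nonneg_left (mono a ha' h) hκ.le
      linarith
    · have := mul_le_mul_of_nonneg_left (mono b hb' h) hκ.le
      linarith

theorem inner_cross_time {E D : V} (hE : Inner σ κ E) (hD : Cross σ κ D) :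
    D.t < E.t ∧ - D.t < E.t := by
  have h1 := hE.t_pos hσ hκ hk
  have h2 := hD.2
  have b1 := mul_nonneg (abs_nonneg D.z) hκ.le
  have : |D.t| < E.t := by
    by_contra hc
    have := mul_le_mul_of_nonneg_right (not_lt.mp hc) hσ.le
    linarith
  exact ⟨lt_of_le_of_lt (le_abs_self _) this, lt_of_le_of_lt (neg_le_abs _) this⟩

/-- An inner disc avoiding the barrier `D` and meeting something external to `D` is external. -/
theorem ext_of_avoid {E D F : V} (hE : Inner σ κ E) (hD : Cross σ κ D) (hF : B F F = 1)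
    (hx : Ext F D) (hm : M F E) (ha : ¬ M E D) : Ext E D := by
  obtain ⟨t1, t2⟩ := inner_cross_time hσ hκ hk hE hD
  rcases not_M ha with h | h
  · exfalso
    have l1 : Lt D E := ⟨by rwa [B_comm], t1⟩
    have := (Lt.trans (by simp [hF]) hD.1 hE.1 (ext_iff.mp hx) l1).1
    simp at this
    linarith [hm.ge]
  · exact ⟨h, by linarith⟩

/-- A chain of inner discs avoiding a barrier stays in its angular window. -/
theorem segment {E : ℕ → V} {D : V} {δ a : ℝ} (m : ℕ) (hE : ∀ k ≤ m, Inner σ κ (E k))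
    (hm : ∀ k < m, M (E k) (E (k + 1))) (hD : Cross σ κ D) (hδ : HasDir D δ)
    (hav : ∀ k ≤ m, ¬ M (E k) D) (h0 : Ext (E 0) D) (ha : HasDir (E 0) a)
    {lo : ℝ} (hlo : cos (lo - δ) = 1) (a1 : lo < a) (a2 : a < lo + 2 * π) :
    ∃ b, HasDir (E m) b ∧ lo < b ∧ b < lo + 2 * π ∧ |b - a| ≤ m * (2 * arccos (1 / κ)) := by
  have key : ∀ k ≤ m, Ext (E k) D ∧
      ∃ b, HasDir (E k) b ∧ lo < b ∧ b < lo + 2 * π ∧ |b - a| ≤ k * (2 * arccos (1 / κ)) := by
    intro k
    induction k with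
    | zero => intro _; exact ⟨h0, a, ha, a1, a2, by simp⟩
    | succ k ih =>
      intro hk1
      obtain ⟨e, b, hb, b1, b2, b3⟩ := ih (by omega)
      have hEk := hE k (by omega)
      have hEk1 := hE (k + 1) hk1
      refine ⟨ext_of_avoid hσ hκ hk hEk1 hD hEk.1 e (hm k (by omega)) (hav _ hk1), ?_⟩
      obtain ⟨c, hc, c1, p, hp, p1, p2⟩ := step hσ hκ hk hEk hb hEk1 (hm k (by omega))
      have no : ∀ x ∈ Set.uIcc b c, cos (x - δ) ≠ 1 := by
        intro x hx hcos
        have := p2 x hx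
        rw [dir_eq_of_cos hcos] at this
        exact e.no_pt hEk.1 hD.1 hp p1.ge (hD.steiner hσ hκ hk hδ hp this)
      refine ⟨c, hc, ?_, ?_, ?_⟩
      · by_contra hcon
        exact no lo (Set.mem_uIcc.mpr (Or.inr ⟨not_lt.mp hcon, b1.le⟩)) hlo
      · by_contra hcon
        refine no (lo + 2 * π) (Set.mem_uIcc.mpr (Or.inl ⟨b2.le, not_lt.mp hcon⟩)) ?_
        rw [show lo + 2 * π - δ = (lo - δ) + 2 * π by ring, cos_add_two_pi, hlo]
      · have := abs_sub_le c b a
        push_cast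
        linarith
  exact (key m le_rfl).2

end

theorem arc_excl {δ lo hi x : ℝ} (h1 : δ ≤ lo) (h2 : lo ≤ x) (h3 : x ≤ hi) (h4 : hi ≤ δ + 2 * π) :
    cos (x - δ) ≤ cos (lo - δ) ∨ cos (x - δ) ≤ cos (hi - δ) := by
  rcases le_total (x - δ) π with h | h
  · left
    exact cos_le_cos_of_nonneg_of_le_pi (by linarith) h (by linarith)
  · right
    rw [← cos_two_pi_sub (x - δ), ← cos_two_pi_sub (hi - δ)]
    exact cos_le_cos_of_nonneg_of_le_pi (by linarith) (by linarith) (by linarith)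

end Pool.Agent.P.MP_7578b2_co
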