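import Pool.Agent.P.MP_7578b2_co.Forced

/-!
Rigidity: every distance below `arcosh 7` is forced by a countable configuration.
-/

namespace Pool.Agent.P.MP_7578b2_co

open Real Filter Topology

theorem cosh_lt_seven {d : ℝ} (h0 : 0 ≤ d) (h : d < arcosh 7) : cosh d < 7 := by
  have := (cosh_lt_cosh (x := d) (y := arcosh 7)).mpr
    (by rwa [abs_of_nonneg h0, abs_of_nonneg (arcosh_nonneg (by norm_num))])
  rwa [cosh_arcosh (by norm_num)] at this

theorem forced_upper {a b : ℝ} (h : a < b) (h' : b - a < arcosh 7) :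
    Forced (fun φ => Dst φ a b < arcosh 7) := by
  have := (forced_upper0 (τ := (b - a) / 2) (by linarith)
    (cosh_lt_seven (by linarith) (by linarith))).iso (boost_iso ((a + b) / 2))
  refine this.mono fun φ t => ?_
  rw [Dst_boost] at t
  convert t using 2 <;> ring

theorem forced_between {a e b : ℝ} (h1 : a < e) (h2 : e < b) (h' : b - a < arcosh 7) :
    Forced (fun φ => Dst φ a e + Dst φ e b ≤ Dst φ a b) := by
  have := (forced_between0 (τ := (b - a) / 2) (e := e - (a + b) / 2)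
    (cosh_lt_seven (by linarith) (by linarith)) (by linarith) (by linarith)).iso
    (boost_iso ((a + b) / 2))
  refine this.mono fun φ t => ?_
  simp only [Dst_boost] at t
  rw [show -((b - a) / 2) + (a + b) / 2 = a by ring, show e - (a + b) / 2 + (a + b) / 2 = e by ring,
    show (b - a) / 2 + (a + b) / 2 = b by ring] at t
  exact t

/-- The threshold of the ring gadget with `3 m` circles. -/
noncomputable def ell (m : ℕ) : ℝ := arcosh (2 / cos (π / (3 * m)) ^ 2 - 1)

theorem ell_arg {m : ℕ} (hm : 2 ≤ m) : 1 < 2 / cos (π / (3 * m)) ^ 2 - 1 := by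
  have hm' : (2 : ℝ) ≤ m := by exact_mod_cast hm
  set x := π / (3 * m) with hx
  have x0 : 0 < x := by positivity
  have xm : 3 * m * x = π := by rw [hx]; field_simp
  have x1 : x ≤ π / 4 := by nlinarith
  have sx : 0 < sin x := sin_pos_of_pos_of_lt_pi x0 (by linarith [pi_pos])
  have cx : 0 < cos x := cos_pos_of_mem_Ioo ⟨by linarith, by linarith [pi_pos]⟩
  have ss := cos_sq_add_sin_sq x
  rw [lt_sub_iff_add_lt, lt_div_iff₀ (by positivity)]
  nlinarith

theorem ell_pos {m : ℕ} (hm : 2 ≤ m) : 0 < ell m := arcosh_pos (ell_arg hm)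

theorem ell_small {ε : ℝ} (hε : 0 < ε) : ∃ m, 2 ≤ m ∧ ell m < ε := by
  have t1 : Tendsto (fun m : ℕ => π / (3 * (m : ℝ))) atTop (𝓝 0) :=
    Tendsto.const_div_atTop (tendsto_natCast_atTop_atTop.const_mul_atTop (by norm_num)) _
  have t2 : ContinuousAt (fun x : ℝ => 2 / cos x ^ 2 - 1) 0 := by
    apply ContinuousAt.sub _ continuousAt_const
    exact ContinuousAt.div continuousAt_const (by fun_prop) (by simp)
  have t3 := t2.tendsto.comp t1
  have h1 : 2 / cos (0 : ℝ) ^ 2 - 1 < cosh ε := by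
    have := one_lt_cosh.mpr hε.ne'
    simp only [cos_zero]; linarith
  obtain ⟨m, hm1, hm2⟩ := ((t3.eventually (gt_mem_nhds h1)).and (eventually_ge_atTop 2)).exists
  refine ⟨m, hm2, ?_⟩
  have := (arcosh_lt_arcosh (lt_trans one_pos (ell_arg hm2)) (cosh_pos ε)).mpr hm1
  rwa [arcosh_cosh hε.le] at this

theorem forced_lower {a d : ℝ} {m : ℕ} (hm : 2 ≤ m) (h : ell m < d) (h' : cosh d ≤ 5 / 3) :
    Forced (fun φ => ell m ≤ Dst φ a (a + d)) := by
  have d0 : 0 < d := (ell_pos hm).trans h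
  have c : 2 / cos (π / (3 * m)) ^ 2 - 1 < cosh d := by
    have := (cosh_lt_cosh (x := ell m) (y := d)).mpr
      (by rwa [abs_of_pos d0, abs_of_pos (ell_pos hm)])
    rwa [ell, cosh_arcosh (ell_arg hm).le] at this
  have := (forced_lower0 (τ := d / 2) hm (by linarith) (by rwa [show 2 * (d / 2) = d by ring])
    (by rwa [show 2 * (d / 2) = d by ring])).iso (boost_iso (a + d / 2))
  refine this.mono fun φ t => ?_
  rw [Dst_boost, show -(d / 2) + (a + d / 2) = a by ring,
    show d / 2 + (a + d / 2) = a + d by ring] at t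
  exact t

theorem forced_chain {a d : ℝ} {m : ℕ} (hm : 2 ≤ m) (h : ell m < d) (h' : cosh d ≤ 5 / 3)
    (N : ℕ) (hN : (N + 1) * d < arcosh 7) :
    Forced (fun φ => (N + 1) * ell m ≤ Dst φ a (a + (N + 1) * d)) := by
  have d0 : 0 < d := (ell_pos hm).trans h
  induction N with
  | zero => simpa using forced_lower hm h h'
  | succ N ih =>
    push_cast at hN ⊢
    have N0 : 0 < ((N : ℝ) + 1) * d := by positivity
    have f1 := ih (by linarith)
    have f2 := forced_lower (a := a + (N + 1) * d) hm h h'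
    have f3 := forced_between (a := a) (e := a + (N + 1) * d) (b := a + (N + 1 + 1) * d)
      (by linarith) (by linarith) (by linarith)
    refine ((f1.and f2).and f3).mono fun φ t => ?_
    obtain ⟨⟨t1, t2⟩, t3⟩ := t
    rw [show a + (N + 1) * d + d = a + (N + 1 + 1) * d by ring] at t2
    linarith

theorem forced_ge_eps {a t ε : ℝ} (ht : 0 < t) (ht' : t < arcosh 7) (hε : 0 < ε) :
    Forced (fun φ => t - ε ≤ Dst φ a (a + t)) := by
  have d0 : 0 < arcosh (5 / 3) := arcosh_pos (by norm_num)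
  obtain ⟨m, hm, hl⟩ := ell_small (ε := min ε (min (t / 2) (arcosh (5 / 3) / 2))) (by positivity)
  have l0 := ell_pos hm
  have l1 : ell m < ε := lt_of_lt_of_le hl (min_le_left _ _)
  have l2 : ell m < t / 2 := lt_of_lt_of_le hl ((min_le_right _ _).trans (min_le_left _ _))
  have l3 : ell m < arcosh (5 / 3) / 2 :=
    lt_of_lt_of_le hl ((min_le_right _ _).trans (min_le_right _ _))
  obtain ⟨N, n1, n2⟩ : ∃ N : ℕ, (N + 1) * ell m < t ∧ t ≤ (N + 2) * ell m := by
    have c1 := Nat.le_ceil (t / ell m)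
    have c2 := Nat.ceil_lt_add_one (show 0 ≤ t / ell m by positivity)
    have c3 : (2 : ℝ) < t / ell m := by rw [lt_div_iff₀ l0]; linarith
    have c4 : 2 ≤ ⌈t / ell m⌉₊ := by
      have : (2 : ℝ) ≤ (⌈t / ell m⌉₊ : ℕ) := by linarith
      exact_mod_cast this
    obtain ⟨N, hN⟩ := Nat.exists_eq_add_of_le c4
    rw [hN] at c1 c2
    push_cast at c1 c2
    refine ⟨N, ?_, ?_⟩
    · rw [← lt_div_iff₀ l0]; linarith
    · rw [← div_le_iff₀ l0]; linarith
  have N0 : (0 : ℝ) < N + 1 := by positivity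
  have e : (N + 1) * (t / (N + 1)) = t := by field_simp
  have f := forced_chain (a := a) (d := t / (N + 1)) hm (by rw [lt_div_iff₀ N0]; linarith)
    (by
      have h1 : t / (N + 1) ≤ arcosh (5 / 3) := by
        rw [div_le_iff₀ N0]; nlinarith [(Nat.cast_nonneg N : (0 : ℝ) ≤ N)]
      have := (cosh_le_cosh (x := t / (N + 1)) (y := arcosh (5 / 3))).mpr
        (by rwa [abs_of_pos (by positivity), abs_of_pos d0])
      rwa [cosh_arcosh (by norm_num)] at this) N (by rwa [e])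
  rw [e] at f
  exact f.mono fun φ h => by linarith

theorem forced_ge {a t : ℝ} (ht : 0 < t) (ht' : t < arcosh 7) :
    Forced (fun φ => t ≤ Dst φ a (a + t)) := by
  refine (Forced.all fun n : ℕ => forced_ge_eps (a := a) ht ht'
    (Nat.one_div_pos_of_nat (n := n))).mono fun φ h => ?_
  by_contra hc
  obtain ⟨n, hn⟩ := exists_nat_one_div_lt (sub_pos.mpr (not_le.mp hc))
  linarith [h n]

theorem forced_le {t : ℝ} (ht : 0 < t) (ht' : t < arcosh 7) :
    Forced (fun φ => Dst φ 0 t ≤ t) := by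
  have key : ∀ n : ℕ, Forced (fun φ => Dst φ 0 t ≤ t + (arcosh 7 - t) / 2 * (1 / (n + 1))) := by
    intro n
    have q0 : (0 : ℝ) < 1 / (n + 1) := Nat.one_div_pos_of_nat
    have q1 : (1 : ℝ) / (n + 1) ≤ 1 := by
      rw [div_le_one (by positivity)]; linarith [(Nat.cast_nonneg n : (0 : ℝ) ≤ n)]
    set η := (arcosh 7 - t) / 2 * (1 / (n + 1)) with hη
    have η0 : 0 < η := mul_pos (by linarith) q0
    have η1 : η ≤ (arcosh 7 - t) / 2 := mul_le_of_le_one_right (by linarith) q1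
    have f1 := forced_upper (a := 0) (b := arcosh 7 - η) (by linarith) (by linarith)
    have f2 := forced_between (a := 0) (e := t) (b := arcosh 7 - η) ht (by linarith) (by linarith)
    have f3 := forced_ge (a := t) (t := arcosh 7 - η - t) (by linarith) (by linarith)
    refine ((f1.and f2).and f3).mono fun φ h => ?_
    obtain ⟨⟨t1, t2⟩, t3⟩ := h
    rw [show t + (arcosh 7 - η - t) = arcosh 7 - η by ring] at t3
    linarith
  refine (Forced.all key).mono fun φ h => ?_
  by_contra hc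
  have p : 0 < (arcosh 7 - t) / 2 := by linarith
  obtain ⟨n, hn⟩ := exists_nat_one_div_lt (div_pos (sub_pos.mpr (not_le.mp hc)) p)
  have := h n
  rw [lt_div_iff₀ p] at hn
  linarith

theorem forced_eq {t : ℝ} (ht : 0 < t) (ht' : t < arcosh 7) :
    Forced (fun φ => Dst φ 0 t = t) := by
  refine ((forced_le ht ht').and (forced_ge (a := 0) ht ht')).mono fun φ h => ?_
  have := h.2
  rw [zero_add] at this
  exact le_antisymm h.1 this

theorem exists_nbrs {v : V} (hv : B v v = 1) :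
    ∃ n1 n2, B n1 n1 = 1 ∧ B n2 n2 = 1 ∧ M v n1 ∧ M v n2 ∧ ¬ M n1 n2 := by
  have key : ∀ v : V, B v v = 1 → v.z ≠ 1 →
      ∃ n1 n2, B n1 n1 = 1 ∧ B n2 n2 = 1 ∧ M v n1 ∧ M v n2 ∧ ¬ M n1 n2 := by
    intro v hv hz
    have hn : B (lc 1 ⟨0, 1, 0, 0⟩ (-1) v) (lc 1 ⟨0, 1, 0, 0⟩ (-1) v) ≠ 0 := by
      rw [B_lc_left, B_lc_right, B_lc_right, hv]
      simp only [B]
      intro e; apply hz; linarith
    have hf := rf_iso hn
    have e := rf_swap (a := ⟨0, 1, 0, 0⟩) (b := v) (by rw [hv]; simp [B]) hn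
    refine ⟨rf _ ⟨3 / 4, 0, 5 / 4, 0⟩, rf _ ⟨3 / 4, 0, -(5 / 4), 0⟩, (hf _ _).trans ?_,
      (hf _ _).trans ?_, ?_, ?_, ?_⟩
    · norm_num [B]
    · norm_num [B]
    · have := hf.M (v := ⟨0, 1, 0, 0⟩) (w := ⟨3 / 4, 0, 5 / 4, 0⟩)
      rw [e] at this
      exact this.mpr (by norm_num [M, B])
    · have := hf.M (v := ⟨0, 1, 0, 0⟩) (w := ⟨3 / 4, 0, -(5 / 4), 0⟩)
      rw [e] at this
      exact this.mpr (by norm_num [M, B])
    · rw [hf.M]
      intro h
      have := h.ge
      norm_num [B] at this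
  by_cases hz : v.z = 1
  · obtain ⟨n1, n2, h1, h2, h3, h4, h5⟩ := key (ng v) (by simp [hv]) (by
      show -v.z ≠ 1
      rw [hz]; norm_num)
    exact ⟨n1, n2, h1, h2, by simpa using h3, by simpa using h4, h5⟩
  · exact key v hv hz

/-- The flat disc in the closed unit ball of Euclidean 3-space modelled by `v`. -/
def disc (v : V) : Set (EuclideanSpace ℝ (Fin 3)) :=
  Metric.closedBall 0 1 ∩ {q | v.z * q 0 + v.x * q 1 + v.y * q 2 = v.t}

theorem mem_ball_iff (q : EuclideanSpace ℝ (Fin 3)) :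
    q ∈ Metric.closedBall (0 : EuclideanSpace ℝ (Fin 3)) 1 ↔ q 0 ^ 2 + q 1 ^ 2 + q 2 ^ 2 ≤ 1 := by
  rw [mem_closedBall_zero_iff, EuclideanSpace.norm_eq, Real.sqrt_le_one, Fin.sum_univ_three]
  simp

theorem disc_meet_iff {v w : V} (hv : B v v = 1) (hw : B w w = 1) :
    (disc v ∩ disc w).Nonempty ↔ M v w := by
  constructor
  · rintro ⟨q, ⟨q1, q2⟩, -, q3⟩
    rw [mem_ball_iff] at q1
    simp only [Set.mem_ofPred_eq] at q2 q3
    refine M_of_pt hv hw (p := ⟨1, q 0, q 1, q 2⟩) ⟨one_pos, ?_⟩ ?_ ?_ <;> simp only [B] <;>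
      linarith
  · intro h
    obtain ⟨p, ⟨p0, p1⟩, p2, p3⟩ := meet_pt hv hw h
    unfold B at p1 p2 p3
    have hb : (!₂[p.z / p.t, p.x / p.t, p.y / p.t] : EuclideanSpace ℝ (Fin 3)) ∈
        Metric.closedBall (0 : EuclideanSpace ℝ (Fin 3)) 1 := by
      rw [mem_ball_iff]
      simp only [Matrix.cons_val_zero, Matrix.cons_val_one, Matrix.cons_val]
      rw [div_pow, div_pow, div_pow, ← add_div, ← add_div, div_le_one (by positivity)]
      linarith
    refine ⟨!₂[p.z / p.t, p.x / p.t, p.y / p.t], ⟨hb, ?_⟩, hb, ?_⟩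
    · simp only [Set.mem_ofPred_eq, Matrix.cons_val_zero, Matrix.cons_val_one, Matrix.cons_val]
      field_simp; linarith
    · simp only [Set.mem_ofPred_eq, Matrix.cons_val_zero, Matrix.cons_val_one, Matrix.cons_val]
      field_simp; linarith

theorem disc_eq {v : V} (hv : B v v = 1) : ∃ (n : EuclideanSpace ℝ (Fin 3)) (c : ℝ), n ≠ 0 ∧
    disc v = Metric.closedBall 0 1 ∩ {q | inner ℝ n q = c} := by
  refine ⟨!₂[v.z, v.x, v.y], v.t, ?_, ?_⟩
  · intro e
    have h0 : v.z = 0 := by simpa using congrArg (fun q => q 0) e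
    have h1 : v.x = 0 := by simpa using congrArg (fun q => q 1) e
    have h2 : v.y = 0 := by simpa using congrArg (fun q => q 2) e
    unfold B at hv
    rw [h0, h1, h2] at hv
    nlinarith [mul_self_nonneg v.t]
  · unfold disc
    congr 1
    ext q
    simp only [Set.mem_ofPred_eq, PiLp.inner_apply, Fin.sum_univ_three, RCLike.inner_apply,
      conj_trivial, Matrix.cons_val_zero, Matrix.cons_val_one, Matrix.cons_val]
    constructor <;> intro h <;> linarith

theorem exists_vec {n : EuclideanSpace ℝ (Fin 3)} {c : ℝ} (hn : n ≠ 0)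
    {p q : EuclideanSpace ℝ (Fin 3)} (hpq : p ≠ q)
    (hp : p ∈ Metric.closedBall 0 1 ∩ {q | inner ℝ n q = c})
    (hq : q ∈ Metric.closedBall 0 1 ∩ {q | inner ℝ n q = c}) :
    ∃ v, B v v = 1 ∧ disc v = Metric.closedBall 0 1 ∩ {q | inner ℝ n q = c} := by
  have hin : ∀ q : EuclideanSpace ℝ (Fin 3), inner ℝ n q = n 0 * q 0 + n 1 * q 1 + n 2 * q 2 := by
    intro q
    simp only [PiLp.inner_apply, Fin.sum_univ_three, RCLike.inner_apply, conj_trivial]
    ring
  obtain ⟨p1, p2⟩ := hp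
  obtain ⟨q1, q2⟩ := hq
  rw [mem_ball_iff] at p1 q1
  simp only [Set.mem_ofPred_eq, hin] at p2 q2
  have n0 : 0 < n 0 ^ 2 + n 1 ^ 2 + n 2 ^ 2 := by
    by_contra hc
    apply hn
    ext i
    fin_cases i <;> simp <;> nlinarith [sq_nonneg (n 0), sq_nonneg (n 1), sq_nonneg (n 2)]
  have d0 : 0 < (p 0 - q 0) ^ 2 + (p 1 - q 1) ^ 2 + (p 2 - q 2) ^ 2 := by
    by_contra hc
    apply hpq
    ext i
    fin_cases i <;> simp <;>
      nlinarith [sq_nonneg (p 0 - q 0), sq_nonneg (p 1 - q 1), sq_nonneg (p 2 - q 2)]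
  have lt : 0 < n 0 ^ 2 + n 1 ^ 2 + n 2 ^ 2 - c ^ 2 := by
    set a := (p 0 + q 0) / 2
    set b := (p 1 + q 1) / 2
    set d := (p 2 + q 2) / 2
    have h1 : a ^ 2 + b ^ 2 + d ^ 2 < 1 := by simp only [a, b, d]; nlinarith
    have h2 : c = n 0 * a + n 1 * b + n 2 * d := by simp only [a, b, d]; linarith
    have h3 : c ^ 2 ≤ (n 0 ^ 2 + n 1 ^ 2 + n 2 ^ 2) * (a ^ 2 + b ^ 2 + d ^ 2) := by
      rw [h2]
      nlinarith [sq_nonneg (n 0 * b - n 1 * a), sq_nonneg (n 0 * d - n 2 * a),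
        sq_nonneg (n 1 * d - n 2 * b)]
    nlinarith
  have r0 := Real.sqrt_pos.mpr lt
  have r2 := Real.sq_sqrt lt.le
  set r := √(n 0 ^ 2 + n 1 ^ 2 + n 2 ^ 2 - c ^ 2)
  refine ⟨⟨c / r, n 0 / r, n 1 / r, n 2 / r⟩, ?_, ?_⟩
  · simp only [B]; field_simp; linarith
  · unfold disc
    congr 1
    ext x
    simp only [Set.mem_ofPred_eq, hin]
    constructor <;> intro h
    · field_simp at h; linarith
    · field_simp; linarith

end Pool.Agent.P.MP_7578b2_co
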